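import Pool.Agent.Helper32.DGY.Frl

/-! LIMITS OF ZOOMS: the limit of zooms over labels in frames is the zoom of the limit over the limit label in the limit
frame. -/

set_option autoImplicit false

namespace Pool.Agent.Helper32.DGY

open Finset Filter Topology Pool.Agent.Helper69.RK Pool.Agent.Helper31.EC Pool.Agent.Helper31.EC.Sp
open Pool.Agent.Helper40.EL Pool.Agent.Helper89.LX Pool.Agent.Helper84.MT Pool.Agent.Helper49.MD
open Pool.Agent.Helper36.AM Pool.Agent.Helper29.MX

noncomputable section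

variable {M : ℕ} {E E' : ℕ → ℕ} {ι : Type}

/-! ### windows: rational windows are enough -/

/-- windows are Lipschitz -/
theorem win_lip {S : Sp} {Q : S.VV M} (l : Leaf S Q E) {a b : ℝ} (hab : a ≤ b) (ε : ℝ) (hε : 0 < ε) :
    ∀ᶠ k in UF, h (l.win b k) (l.win a k) / (S.F k).n ≤ l.e * (b - a) + ε := by
  filter_upwards [h_cell_cell_le l.Y hab (fun k => l.La k ⊓ Setoid.ker (l.Y.cellv a k)) (fun k => inf_le_right) ε hε]
    with k hk
  refine le_trans (div_le_div_of_nonneg_right ?_ (S.F k).pos.le) hk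
  have e1 : l.win b k = fc (l.La k) ⊔ fc (Setoid.ker (l.Y.cellv b k)) := fc_inf (l.La k) (Setoid.ker (l.Y.cellv b k))
  have e2 : l.win a k = fc (l.La k ⊓ Setoid.ker (l.Y.cellv a k)) := rfl
  rw [e1, e2]
  refine (h_sup_le _ _ _).trans ?_
  have h1 : h (fc (l.La k)) (fc (l.La k ⊓ Setoid.ker (l.Y.cellv a k))) = 0 := h_zero (by
    rw [fc_inf]
    exact le_sup_left)
  rw [h1, zero_add]

/-- monotone Lipschitz families of partitions which are comparable at the rational points -/
theorem PLe_of_rat {S : Sp} {A B : ℝ → Part S} {L : ℝ} (hL : 0 ≤ L)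
    (hA : ∀ a b : ℝ, 0 ≤ a → a ≤ b → b ≤ 1 → ∀ ε : ℝ, 0 < ε → ∀ᶠ k in UF, h (A b k) (A a k) / (S.F k).n ≤ L * (b - a) + ε)
    (hB : ∀ a b : ℝ, 0 ≤ a → a ≤ b → b ≤ 1 → PLe (B a) (B b))
    (h1 : ∀ q : ℚ, (0 : ℝ) ≤ q → (q : ℝ) ≤ 1 → PLe (A q) (B q)) {b : ℝ} (h0 : 0 ≤ b) (hb : b ≤ 1) : PLe (A b) (B b) := by
  have key : ∀ ε : ℝ, 0 < ε → ∀ᶠ k in UF, h (A b k) (B b k) / (S.F k).n ≤ ε := by
    intro ε hε
    obtain ⟨q, hq0, hqb, hqe⟩ : ∃ q : ℚ, (0 : ℝ) ≤ q ∧ (q : ℝ) ≤ b ∧ L * (b - q) ≤ ε / 4 := by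
      rcases h0.eq_or_lt with h | h
      · refine ⟨0, ?_, ?_, ?_⟩
        · rw [Rat.cast_zero]
        · rw [Rat.cast_zero]
          exact h0
        · rw [Rat.cast_zero, ← h, sub_zero, mul_zero]
          linarith
      · obtain ⟨q, hq, hq'⟩ := exists_rat_btwn (show max 0 (b - ε / (4 * (L + 1))) < b from
          max_lt h (by
            have : 0 < ε / (4 * (L + 1)) := by positivity
            linarith))
        refine ⟨q, (le_max_left _ _).trans hq.le, hq'.le, ?_⟩
        have h2 : b - q ≤ ε / (4 * (L + 1)) := by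
          have := (le_max_right 0 (b - ε / (4 * (L + 1)))).trans hq.le
          linarith
        calc L * (b - q) ≤ L * (ε / (4 * (L + 1))) := mul_le_mul_of_nonneg_left h2 hL
          _ ≤ (L + 1) * (ε / (4 * (L + 1))) := mul_le_mul_of_nonneg_right (by linarith) (by positivity)
          _ = ε / 4 := by field_simp
    have h2 := hA q b hq0 hqb hb (ε / 4) (by linarith)
    have h3 := (show Tendsto _ _ _ from h1 q hq0 (hqb.trans hb)).eventually (gt_mem_nhds (show (0 : ℝ) < ε / 4 by linarith))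
    have h4 := (show Tendsto _ _ _ from hB q b hq0 hqb hb).eventually (gt_mem_nhds (show (0 : ℝ) < ε / 4 by linarith))
    filter_upwards [h2, h3, h4] with k a1 a2 a3
    have hn := (S.F k).pos
    have t1 := h_triangle' (A b k) (A q k) (B b k)
    have t2 := h_triangle' (A q k) (B q k) (B b k)
    have t3 : h (A b k) (B b k) / (S.F k).n ≤ h (A b k) (A q k) / (S.F k).n + h (A q k) (B q k) / (S.F k).n +
        h (B q k) (B b k) / (S.F k).n := by
      rw [← add_div, ← add_div]
      exact div_le_div_of_nonneg_right (by linarith) hn.le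
    linarith
  have h2 : Tendsto (fun k => h (A b k) (B b k) / (S.F k).n) UF (𝓝 0) := by
    rw [Metric.tendsto_nhds]
    intro ε hε
    filter_upwards [key (ε / 2) (by linarith)] with k hk
    rw [Real.dist_eq, sub_zero, abs_of_nonneg (div_nonneg (h_nonneg _ _) (S.F k).pos.le)]
    linarith
  exact h2

/-- windows of a system as partitions over a label -/
theorem up_PLe {S : Sp} (l : Lab S) (e : ℝ) (he : 0 < e) {A B : Part S} (h : PLe A B) : PLe (l.up e he A) (l.up e he B) := by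
  refine (l.nul_over e he).mpr (h.of_le (Eventually.of_forall fun _ => h_nonneg _ _) (Eventually.of_forall fun k => ?_))
  show Pool.Agent.Helper31.EC.h ((l k).up e he (A k)) ((l k).up e he (B k)) ≤ _
  rw [FLab.h_up]
  exact (h_anti le_sup_left).trans ((l k).p.h_map _ _).le

theorem up_lip {S : Sp} (l : Lab S) (e : ℝ) (he : 0 < e) {A B : Part S} {x : ℝ}
    (h : ∀ ε : ℝ, 0 < ε → ∀ᶠ k in UF, Pool.Agent.Helper31.EC.h (A k) (B k) / (S.F k).n ≤ e * x + ε) (ε : ℝ)
    (hε : 0 < ε) : ∀ᶠ k in UF, Pool.Agent.Helper31.EC.h (l.up e he A k) (l.up e he B k) / ((l.ovr e he).F k).n ≤ x + ε := by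
  filter_upwards [h (e * ε) (mul_pos he hε)] with k hk
  rw [l.n_over e he k, div_le_iff₀ (mul_pos he (S.F k).pos)]
  rw [div_le_iff₀ (S.F k).pos] at hk
  have h1 : Pool.Agent.Helper31.EC.h (l.up e he A k) (l.up e he B k) ≤ Pool.Agent.Helper31.EC.h (A k) (B k) := by
    show Pool.Agent.Helper31.EC.h ((l k).up e he (A k)) ((l k).up e he (B k)) ≤ _
    rw [FLab.h_up]
    exact (h_anti le_sup_left).trans ((l k).p.h_map _ _).le
  nlinarith

/-- rational windows are enough for `Gz` -/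
theorem Gz.of_rat {S : Sp} {s : MSys S M E ι} {l : Lab S} {c e : ℝ} {he : 0 < e} {X : l.sp.VV M}
    {t : MSys (l.ovr e he) M E' ι} (hp : ∃ K : ℕ → ℝ, S.Sub K ∧ ∀ᶠ k in UF, ∀ ω : (l.sp.F k).Ω, (l.sp.F k).μ ω ≠ 0 →
      ∀ j, |t.Q.v k ω j - X.v k ω j| ≤ K k * S.dl e k)
    (hw : ∀ (q : ℚ) (i : ι), (0 : ℝ) ≤ q → (q : ℝ) ≤ 1 →
      PLe ((t.lf i).win q) (l.up e he ((s.lf i).win (c + e * q))) ∧
        PLe (l.up e he ((s.lf i).win (c + e * q))) ((t.lf i).win q)) : Gz s l c e he X t where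
  pt := hp
  win := fun b i h0 h1 => by
    have hm : ∀ a b : ℝ, a ≤ b → c + e * a ≤ c + e * b := fun a b hab => by
      have := mul_le_mul_of_nonneg_left hab he.le
      linarith
    constructor
    · exact PLe_of_rat (A := fun b => (t.lf i).win b) (B := fun b => l.up e he ((s.lf i).win (c + e * b)))
        (L := (t.lf i).e) (Nat.cast_nonneg _) (fun a b _ hab _ ε hε => win_lip (t.lf i) hab ε hε)
        (fun a b _ hab _ => up_PLe l e he ((s.lf i).win_mono (hm a b hab))) (fun q hq0 hq1 => (hw q i hq0 hq1).1) h0 h1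
    · exact PLe_of_rat (A := fun b => l.up e he ((s.lf i).win (c + e * b))) (B := fun b => (t.lf i).win b)
        (L := (s.lf i).e) (Nat.cast_nonneg _) (fun a b _ hab _ ε hε => up_lip l e he (fun ε' hε' => by
          have := win_lip (s.lf i) (hm a b hab) ε' hε'
          refine this.mono fun k hk => hk.trans (le_of_eq ?_)
          ring) ε hε)
        (fun a b _ hab _ => (t.lf i).win_mono hab) (fun q hq0 hq1 => (hw q i hq0 hq1).2) h0 h1

/-! ### limits of zooms -/

variable {S : ℕ → Sp} {s : ∀ j, MSys (S j) M E ι} {l : ∀ j, Lab (S j)} {c e : ℝ} {he : 0 < e} {X : ∀ j, (l j).sp.VV M}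

/-- the rational window number `i` -/
def rw' (i : ℕ) : ℝ := ((Encodable.decode (α := ℚ) i).getD 0 : ℚ)

/-- the slowness conditions for zooms -/
def gzE (s : ∀ j, MSys (S j) M E ι) (l : ∀ j, Lab (S j)) (c e : ℝ) (he : 0 < e) (X : ∀ j, (l j).sp.VV M)
    (z : ∀ j, MSys ((l j).ovr e he) M E' ι) (i j k : ℕ) : Prop :=
  subE S (fun j k K => ∀ ω : ((l j).sp.F k).Ω, ((l j).sp.F k).μ ω ≠ 0 → ∀ a,
    |(z j).Q.v k ω a - (X j).v k ω a| ≤ K * (S j).dl e k) j k ∧
  (0 ≤ rw' i → rw' i ≤ 1 → ∀ a,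
    nulE (fun j => (l j).ovr e he) (fun j k => Pool.Agent.Helper31.EC.h (((z j).lf a).win (rw' i) k)
      ((l j).up e he (((s j).lf a).win (c + e * rw' i)) k)) j k ∧
    nulE (fun j => (l j).ovr e he) (fun j k => Pool.Agent.Helper31.EC.h
      ((l j).up e he (((s j).lf a).win (c + e * rw' i)) k) (((z j).lf a).win (rw' i) k)) j k)

theorem gzE_ev [Finite ι] {z : ∀ j, MSys ((l j).ovr e he) M E' ι} (hz : ∀ j, Gz (s j) (l j) c e he (X j) (z j))
    (i j : ℕ) : ∀ᶠ k in UF, gzE s l c e he X z i j k := by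
  refine Filter.Eventually.and (subE_ev (hz j).pt) ?_
  by_cases h0 : 0 ≤ rw' i
  · by_cases h1 : rw' i ≤ 1
    · have h2 : ∀ᶠ k in UF, ∀ a, nulE (fun j => (l j).ovr e he) (fun j k => Pool.Agent.Helper31.EC.h
          (((z j).lf a).win (rw' i) k) ((l j).up e he (((s j).lf a).win (c + e * rw' i)) k)) j k ∧
          nulE (fun j => (l j).ovr e he) (fun j k => Pool.Agent.Helper31.EC.h
            ((l j).up e he (((s j).lf a).win (c + e * rw' i)) k) (((z j).lf a).win (rw' i) k)) j k := by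
        rw [eventually_all]
        intro a
        exact (nulE_ev (S := fun j => (l j).ovr e he) (f := fun j k => Pool.Agent.Helper31.EC.h
          (((z j).lf a).win (rw' i) k) ((l j).up e he (((s j).lf a).win (c + e * rw' i)) k)) ((hz j).win _ a h0 h1).1).and
          (nulE_ev (S := fun j => (l j).ovr e he) (f := fun j k => Pool.Agent.Helper31.EC.h
            ((l j).up e he (((s j).lf a).win (c + e * rw' i)) k) (((z j).lf a).win (rw' i) k))
              ((hz j).win _ a h0 h1).2)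
      exact h2.mono fun k hk _ _ => hk
    · exact Eventually.of_forall fun k _ h => absurd h h1
  · exact Eventually.of_forall fun k h => absurd h h0

/-- LIMITS OF ZOOMS -/
theorem gz_dg {z : ∀ j, MSys ((l j).ovr e he) M E' ι} {J : ℕ → ℕ} (h : Slo S (gzE s l c e he X z) J)
    {t : MSys (dsp S J h.lim) M E ι} (et : ∀ᶠ k in UF, ob t k = ob (s (J k)) k)
    {Y : (dlab l J h.lim).sp.VV M} (eY : ∀ᶠ k in UF, Y.v k = (X (J k)).v k)
    {zt : MSys ((dlab l J h.lim).ovr e he) M E' ι} (ez : ∀ᶠ k in UF, ob zt k = ob (z (J k)) k) :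
    Gz t (dlab l J h.lim) c e he Y zt := by
  apply Gz.of_rat
  · have h1 := sub_dg h.tend h.lim ((h.slow 0).mono fun k hk => hk.1)
    obtain ⟨K, hK, h2⟩ := h1
    refine ⟨K, hK, ?_⟩
    filter_upwards [h2, eY, lim_Q (S := fun j => (l j).ovr e he) (s := z) (hn := ovr_lim l e he h.lim) (t := zt) ez]
      with k a b d ω hω i
    rw [b, d]
    exact a ω hω i
  · intro q i hq0 hq1
    have e1 : rw' (Encodable.encode q) = q := by
      unfold rw'
      rw [Encodable.encodek]
      rfl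
    have hs := h.slow (Encodable.encode q)
    rw [← e1] at hq0 hq1 ⊢
    have w1 := lim_win (S := fun j => (l j).ovr e he) (s := z) (hn := ovr_lim l e he h.lim) (t := zt) ez
      (rw' (Encodable.encode q)) i
    have w2 := lim_win et (c + e * rw' (Encodable.encode q)) i
    constructor
    · have n1 := nul_dg (S := fun j => (l j).ovr e he) (f := fun j k => Pool.Agent.Helper31.EC.h
        (((z j).lf i).win (rw' (Encodable.encode q)) k)
        ((l j).up e he (((s j).lf i).win (c + e * rw' (Encodable.encode q))) k)) h.tend (ovr_lim l e he h.lim)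
        (hs.mono fun k hk => (hk.2 hq0 hq1 i).1)
      refine n1.congr' ?_
      filter_upwards [w1, w2] with k a b
      have e2 : (dlab l J h.lim).up e he ((t.lf i).win (c + e * rw' (Encodable.encode q))) k =
          (l (J k)).up e he (((s (J k)).lf i).win (c + e * rw' (Encodable.encode q))) k := by
        show (l (J k) k).up e he _ = (l (J k) k).up e he _
        rw [b]
      rw [e2]
      exact congrArg (fun x => Pool.Agent.Helper31.EC.h x
        ((l (J k)).up e he (((s (J k)).lf i).win (c + e * rw' (Encodable.encode q))) k) /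
          (((l (J k)).ovr e he).F k).n) a.symm
    · have n1 := nul_dg (S := fun j => (l j).ovr e he) (f := fun j k => Pool.Agent.Helper31.EC.h
        ((l j).up e he (((s j).lf i).win (c + e * rw' (Encodable.encode q))) k)
        (((z j).lf i).win (rw' (Encodable.encode q)) k)) h.tend (ovr_lim l e he h.lim)
        (hs.mono fun k hk => (hk.2 hq0 hq1 i).2)
      refine n1.congr' ?_
      filter_upwards [w1, w2] with k a b
      have e2 : (dlab l J h.lim).up e he ((t.lf i).win (c + e * rw' (Encodable.encode q))) k =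
          (l (J k)).up e he (((s (J k)).lf i).win (c + e * rw' (Encodable.encode q))) k := by
        show (l (J k) k).up e he _ = (l (J k) k).up e he _
        rw [b]
      rw [e2]
      exact congrArg (fun x => Pool.Agent.Helper31.EC.h
        ((l (J k)).up e he (((s (J k)).lf i).win (c + e * rw' (Encodable.encode q))) k) x /
          (((l (J k)).ovr e he).F k).n) a.symm

/-- [ZML] LIMITS OF ZOOMS IN FRAMES -/
theorem zml_lab [Finite ι] {La : Fin M → ℝ} (f : ∀ j, Frm (s j).Q (l j) La) (z : ∀ j, MSys ((l j).ovr e he) M E' ι)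
    (hz : ∀ j, Gz (s j) (l j) c e he (f j).X (z j)) : ∃ Q : ℕ → ℕ → ℕ → Prop, (∀ i j, ∀ᶠ k in UF, Q i j k) ∧
      ∀ (J : ℕ → ℕ) (h : Slo S Q J) (t : MSys (dsp S J h.lim) M E ι), (∀ᶠ k in UF, ob t k = ob (s (J k)) k) →
        ∀ F : Frm t.Q (dlab l J h.lim) La, (∀ᶠ k in UF, F.X.v k = (f (J k)).X.v k) →
          ∀ zt : MSys ((dlab l J h.lim).ovr e he) M E' ι, (∀ᶠ k in UF, ob zt k = ob (z (J k)) k) →
            Gz t (dlab l J h.lim) c e he F.X zt :=
  ⟨gzE s l c e he (fun j => (f j).X) z, gzE_ev hz, fun _ h _ et _ eF _ ez => gz_dg h et eF ez⟩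

/-- [ZML] literal labels -/
theorem zml [Finite ι] {La : Fin M → ℝ} (X : ∀ j, Rsl (S j)) (f : ∀ j, Frm (s j).Q (Lab.ofZ (X j)) La)
    (z : ∀ j, MSys ((Lab.ofZ (X j)).ovr e he) M E' ι)
    (hz : ∀ j, Gz (s j) (Lab.ofZ (X j)) c e he (f j).X (z j)) : ∃ Q : ℕ → ℕ → ℕ → Prop,
      (∀ i j, ∀ᶠ k in UF, Q i j k) ∧ ∀ (J : ℕ → ℕ) (h : Slo S Q J) (t : MSys (dsp S J h.lim) M E ι),
        (∀ᶠ k in UF, ob t k = ob (s (J k)) k) →
          ∀ F : Frm t.Q (Lab.ofZ (S := dsp S J h.lim) fun k => X (J k) k) La,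
            (∀ᶠ k in UF, F.X.v k = (f (J k)).X.v k) →
              ∀ zt : MSys ((Lab.ofZ (S := dsp S J h.lim) fun k => X (J k) k).ovr e he) M E' ι,
                (∀ᶠ k in UF, ob zt k = ob (z (J k)) k) →
                  Gz t (Lab.ofZ (S := dsp S J h.lim) fun k => X (J k) k) c e he F.X zt :=
  zml_lab f z hz

end

end Pool.Agent.Helper32.DGY
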