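import Pool.Agent.Helper32.DGY.Dfc
import Pool.Agent.Helper32.DGY.Zml
import Pool.Agent.Helper7.RD.Br
import Pool.Agent.Helper55.INV.Gz

/-! [TOT] LIMITS OF MEMBERS OF THE LAST CLASS HAVE EXACT TOTAL NUMBERS: the zooms over the least carriers are members, so
their limits are stable (limits of stable systems with a deficit), and the limits of the zooms are the zooms over the
limits of the carriers. -/

set_option autoImplicit false

namespace Pool.Agent.Helper32.DGY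

open Finset Filter Topology Pool.Agent.Helper69.RK Pool.Agent.Helper31.EC Pool.Agent.Helper31.EC.Sp
open Pool.Agent.Helper40.EL Pool.Agent.Helper89.LX Pool.Agent.Helper84.MT Pool.Agent.Helper49.MD
open Pool.Agent.Helper36.AM Pool.Agent.Helper29.MX
open Pool.Agent.Helper47.FN (KR lftR obR lftR_ob)
open Pool.Agent.Helper94.SEL (Ctx)
open Pool.Agent.Helper26.OUT (WDs)

noncomputable section

variable {M N : ℕ} {E : ℕ → ℕ} {ι : Type}

/-- [NSLB] (helper43): limits of stable systems with Lipschitz numbers and a deficit are stable -/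
def NSLx (N : ℕ) : Prop := ∀ (A C : MCl N), OkA N A → Ocl N A C → (∀ m, m < N → STu m) → ∀ v : ℕ,
  STO N (Cv A (v + 1)) → ∀ (g r : ℕ) (l La : ℝ), 0 < l → ∀ ε : ℕ → ℝ, (∀ j, 0 ≤ ε j) → Tendsto ε atTop (𝓝 0) →
    DiagTo (fun j => lftR fun S (s : MSys S N (lin g) (Fin r)) R => CvK C v S g r s R ∧
      AllE (fun _ t R' => ∀ c, 0 ≤ c → c < l → (N : ℝ) - volKO t R' c ≤ La * c + ε j) S s R)
     (lftR fun S (s : MSys S N (lin g) (Fin r)) R => CvK C v S g r s R ∧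
      ((∀ b : ℝ, 0 < b → b ≤ 1 → Dfc b s) → Stb 0 s R))

/-- [AEN] (helper19): a zoom over a literal type-label with a frame which is stable on all events gives the exact number
on all events -/
def AENx (N : ℕ) : Prop := ∀ (S : Sp) (g r : ℕ) (s : MSys S N (lin g) (Fin r)) (X : Rsl S) (c e : ℝ) (he : 0 < e)
  (La : Fin N → ℝ), 0 ≤ c → (∀ j, c ≤ La j) → (∀ j, La j + e ≤ 1) → TLb s c (Lab.ofZ X) →
    ∀ (f : Frm s.Q (Lab.ofZ X) La) (κ : ℕ), (∀ k ω j, (f.P k ω j).totalDegree ≤ κ) →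
      ∀ z : MSys ((Lab.ofZ X).ovr e he) N (lin g) (Fin r), Gz s (Lab.ofZ X) c e he f.X z → Stb 0 z (rbot _) →
        AllE (fun _ t R => volKO t R c = N - ∑ j, La j) S s (rbot S)

/-- the same object, each type eventually -/
theorem ob_of_giv [Finite ι] {S : Sp} {s : MSys S N E ι} {x : (KM N ι).Ob S} (h : Giv s x) :
    ∀ᶠ k in UF, ob s k = x k := by
  have h1 : ∀ᶠ k in UF, ∀ i, lob (s.lf i) k = (x k : FMs (S.F k).Ω N ι).lf i := eventually_all.2 h.2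
  filter_upwards [h.1, h1] with k a b
  show (⟨s.Q.v k, fun i => lob (s.lf i) k⟩ : FMs (S.F k).Ω N ι) =
    (⟨(x k : FMs (S.F k).Ω N ι).Q, (x k : FMs (S.F k).Ω N ι).lf⟩ : FMs (S.F k).Ω N ι)
  have e1 : (fun i => lob (s.lf i) k) = (x k : FMs (S.F k).Ω N ι).lf := funext b
  rw [a, e1]

/-- stability does not see the resolution on null sets of the ultrafilter -/
theorem stb_res [Finite ι] {S : Sp} {s : MSys S N E ι} {R R' : Rsl S} (hR : ∀ᶠ k in UF, R k = R' k) {ε : ℝ}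
    (h : Stb ε s R) : Stb ε s R' := fun T p A hA =>
  (h T p A hA).trans (Pool.Agent.Helper7.RD.volKO_mono (S := Sp.im p A) (hR.mono fun k hk => hk.le) le_rfl)

theorem tot_lip {S : Sp} {D : MCl (M + 1)} {v g r : ℕ} {w : Fin (M + 1) → ℝ} {ρ : ℝ} (hw : Wts M g w ρ)
    {s : MSys S (M + 1) (lin g) (Fin r)} (hs : YM D v g r w ρ S s) : AllE (fun _ t R' => ∀ c, 0 ≤ c →
      c < (g : ℝ)⁻¹ → ((M + 1 : ℕ) : ℝ) - volKO t R' c ≤ (∑ i, w i) * c + 0) S s (rbot S) := by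
  intro T p A hA c h0 h1
  have hg : (0 : ℝ) < g := by exact_mod_cast hw.g1
  have h2 := hs.tot T p A hA c h0 fun i => by
    have h3 : w i * c ≤ g * c := mul_le_mul_of_nonneg_right (hw.le i) h0
    have h4 : (g : ℝ) * c < g * (g : ℝ)⁻¹ := mul_lt_mul_of_pos_left h1 hg
    rw [mul_inv_cancel₀ hg.ne'] at h4
    linarith
  rw [h2]
  linarith

section lim

variable {A : MCl (M + 1)} {C : ℕ → MCl (M + 1)} {B : MCl (M + 1)} {D : (Fin (M + 1) → ℝ) → ℕ → MCl (M + 1)} {v : ℕ}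

/-- LIMITS OF MEMBERS ARE STABLE -/
theorem stb_dg (nsl : NSLx (M + 1)) (ctx : Ctx M A C v) (ok : Okd (M + 1) A C B D) {m g r : ℕ}
    {w : Fin (M + 1) → ℝ} {ρ : ℝ} (hw : Wts M g w ρ) {S : ℕ → Sp} (z : ∀ j, MSys (S j) (M + 1) (lin g) (Fin r))
    (hz : ∀ j, YM (D w m) v g r w ρ (S j) (z j)) : ∃ Q : ℕ → ℕ → ℕ → Prop, (∀ i j, ∀ᶠ k in UF, Q i j k) ∧
      ∀ (J : ℕ → ℕ) (h : Slo S Q J), ∃ t : MSys (dsp S J h.lim) (M + 1) (lin g) (Fin r),
        (∀ᶠ k in UF, ob t k = ob (z (J k)) k) ∧ Stb 0 t (rbot _) := by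
  obtain ⟨A', D', hA', hocl, hle, hst, hsto⟩ := ok.aux
  have hg : (0 : ℝ) < (g : ℝ)⁻¹ := inv_pos.mpr (by exact_mod_cast hw.g1)
  obtain ⟨Q1, hQ1, h1⟩ := nsl A' (D' w m) hA' (hocl w m) ctx.st v (hsto (v + 1) ctx.sto) g r (g : ℝ)⁻¹ (∑ i, w i) hg
    (fun _ => 0) (fun _ => le_rfl) tendsto_const_nhds S (fun j => obR (z j) (rbot (S j))) fun j => lftR_ob
      ⟨⟨hst w m _ g r _ (hz j).cl (ym_stb (hz j)), Eventually.of_forall fun k ω ω' _ _ _ e => by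
        have e' : ω = ω' := e
        rw [e'], (hz j).inv⟩, tot_lip hw (hz j)⟩
  obtain ⟨Q2, hQ2, h2⟩ := dfO_dg (N := M + 1) (ι := Fin r) (ρ := ρ) S (fun j => ob (z j)) fun j => dfO_of
    fun b h0 hb T p A hA => ym_H (hz j) h0 hb p A hA
  refine ⟨fun i j k => Q1 i j k ∧ Q2 i j k, fun i j => (hQ1 i j).and (hQ2 i j), fun J h => ?_⟩
  obtain ⟨t, R, ht, hR, _, h3⟩ := h1 J h.left
  have h4 : ∀ᶠ k in UF, ob t k = ob (z (J k)) k := ob_of_giv (S := dsp S J h.lim) ht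
  have h5 := dfO_inv _ _ _ (h4.mono fun k hk => hk.symm) (h2 J h.right)
  exact ⟨t, h4, stb_res hR (h3 fun b h0 hb => dfO_to hw.rho (Nat.succ_le_succ (Nat.zero_le M)) h5 b h0 hb)⟩

/-- THE TOTAL NUMBER OF THE LIMIT AT ONE WINDOW -/
theorem tot_c (nsl : NSLx (M + 1)) (aen : AENx (M + 1)) (zm : ZMYR M) (ctx : Ctx M A C v) (ok : Okd (M + 1) A C B D)
    {m g r : ℕ} {w : Fin (M + 1) → ℝ} {ρ : ℝ} (hw : Wts M g w ρ) {S : ℕ → Sp}
    (s : ∀ j, MSys (S j) (M + 1) (lin g) (Fin r)) (hs : ∀ j, YM (D w m) v g r w ρ (S j) (s j)) {c : ℝ} (hc : 0 ≤ c)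
    (hc1 : ∀ i, w i * c < 1) : ∃ Q : ℕ → ℕ → ℕ → Prop, (∀ i j, ∀ᶠ k in UF, Q i j k) ∧
      ∀ (J : ℕ → ℕ) (h : Slo S Q J) (t : MSys (dsp S J h.lim) (M + 1) (lin g) (Fin r)),
        (∀ᶠ k in UF, ob t k = ob (s (J k)) k) →
          AllE (fun _ t R => volKO t R c = (M + 1 : ℕ) - (∑ i, w i) * c) _ t (rbot _) := by
  obtain ⟨e, he, hle⟩ : ∃ e : ℝ, 0 < e ∧ w (Fin.last M) * c + e ≤ 1 :=
    ⟨1 - w (Fin.last M) * c, by linarith [hc1 (Fin.last M)], by linarith⟩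
  have hLa : ∀ j, w j * c + e ≤ 1 := fun j =>
    (add_le_add_left (mul_le_mul_of_nonneg_right (hw.mono (Fin.le_last j)) hc) e).trans hle
  choose X hX using fun j => Pool.Agent.Helper52.MW.AllE_self (hs j).car c hc hc1
  have hT : ∀ j, TLb (s j) c (Lab.ofZ (X j)) := fun j i => (hX j).kl.1 (some i)
  let f : ∀ j, Frm (s j).Q (Lab.ofZ (X j)) fun i => w i * c := fun j => (hX j).fr.some
  choose z hz hzY using fun j => zm A C B D v ctx ok m g r w ρ hw (S j) (s j) (hs j) c hc (hc1 _) (Lab.ofZ (X j)) (f j)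
    (hT j) e he hle
  obtain ⟨Q1, hQ1, h1⟩ := frl s X hT f
  obtain ⟨Q2, hQ2, h2⟩ := zml X f z fun j => (hz j).toGz
  obtain ⟨Q3, hQ3, h3⟩ := stb_dg nsl ctx ok hw (S := fun j => (Lab.ofZ (X j)).ovr e he) z hzY
  refine ⟨fun i j k => Q1 i j k ∧ Q2 i j k ∧ Q3 i j k, fun i j => (hQ1 i j).and ((hQ2 i j).and (hQ3 i j)),
    fun J h t ht => ?_⟩
  obtain ⟨h4, F, hF1, -⟩ := h1 J h.left t ht
  obtain ⟨zt, hzt, hst⟩ := h3 J (Slo.ovr h.right.right (fun j => Lab.ofZ (X j)) e he)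
  have h5 := h2 J h.right.left t ht F (Eventually.of_forall hF1) zt hzt
  obtain ⟨κ, hκ⟩ := Pool.Agent.Helper55.INV.frm_deg hc hw.ge F
  have h6 := aen _ g r t (fun k => X (J k) k) c e he (fun i => w i * c) hc
    (fun j => le_mul_of_one_le_left hc (hw.ge j)) hLa h4 F κ hκ zt h5 hst
  rw [← Finset.sum_mul] at h6
  exact h6

/-- real windows from rational windows -/
theorem tot_of_rat [Finite ι] {S : Sp} {s : MSys S (M + 1) E ι} {R : Rsl S} {w : Fin (M + 1) → ℝ} (hm : Monotone w)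
    (h1 : ∀ i, 1 ≤ w i) (h : ∀ q : ℚ, (0 : ℝ) ≤ q → (∀ i, w i * q < 1) →
      volKO s R q = (M + 1 : ℕ) - (∑ i, w i) * q) : Tot w s R := by
  intro c h0 hc
  have hW : 0 ≤ ∑ i, w i := Finset.sum_nonneg fun i _ => zero_le_one.trans (h1 i)
  have hL : 0 < w (Fin.last M) := zero_lt_one.trans_le (h1 _)
  have key : ∀ ε : ℝ, 0 < ε → ∃ η : ℝ, 0 < η ∧ (∑ i, w i) * η ≤ ε := fun ε hε =>
    ⟨ε / ((∑ i, w i) + 1), div_pos hε (by linarith), by
      rw [mul_div_assoc', div_le_iff₀ (by linarith)]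
      nlinarith⟩
  apply le_antisymm
  · refine le_of_forall_pos_le_add fun ε hε => ?_
    obtain ⟨η, hη, hη2⟩ := key ε hε
    obtain ⟨a, a0, a1, a2⟩ : ∃ a : ℚ, (0 : ℝ) ≤ a ∧ (a : ℝ) ≤ c ∧ c - a ≤ η := by
      rcases h0.eq_or_lt with e | hlt
      · refine ⟨0, ?_, ?_, ?_⟩
        · rw [Rat.cast_zero]
        · rw [Rat.cast_zero]
          exact h0
        · rw [Rat.cast_zero, ← e, sub_zero]
          exact hη.le
      · obtain ⟨a, a1, a2⟩ := exists_rat_btwn (show max 0 (c - η) < c from max_lt hlt (by linarith))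
        have a3 := le_max_left 0 (c - η)
        have a4 := le_max_right 0 (c - η)
        exact ⟨a, a3.trans a1.le, a2.le, by linarith⟩
    have b1 := h a a0 fun i => lt_of_le_of_lt (mul_le_mul_of_nonneg_left a1 (zero_le_one.trans (h1 i))) (hc i)
    have b2 : volKO s R c ≤ volKO s R a := Pool.Agent.Helper7.RD.volKO_mono (Eventually.of_forall fun _ => le_rfl) a1
    have b3 : (∑ i, w i) * (c - a) ≤ (∑ i, w i) * η := mul_le_mul_of_nonneg_left a2 hW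
    rw [b1] at b2
    linarith
  · refine le_of_forall_pos_le_add fun ε hε => ?_
    obtain ⟨η, hη, hη2⟩ := key ε hε
    have c1 : c < (w (Fin.last M))⁻¹ := by
      rw [inv_eq_one_div, lt_div_iff₀ hL, mul_comm]
      exact hc _
    obtain ⟨a, a1, a2⟩ := exists_rat_btwn (show c < min (c + η) (w (Fin.last M))⁻¹ from lt_min (by linarith) c1)
    have a3 : (a : ℝ) < c + η := lt_of_lt_of_le a2 (min_le_left _ _)
    have a4 : (a : ℝ) < (w (Fin.last M))⁻¹ := lt_of_lt_of_le a2 (min_le_right _ _)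
    have b0 : (0 : ℝ) ≤ a := h0.trans a1.le
    have b1 := h a b0 fun i => by
      have b2 : w i * a ≤ w (Fin.last M) * a := mul_le_mul_of_nonneg_right (hm (Fin.le_last i)) b0
      have b3 : w (Fin.last M) * a < w (Fin.last M) * (w (Fin.last M))⁻¹ := mul_lt_mul_of_pos_left a4 hL
      rw [mul_inv_cancel₀ hL.ne'] at b3
      linarith
    have b2 : volKO s R a ≤ volKO s R c := Pool.Agent.Helper7.RD.volKO_mono (Eventually.of_forall fun _ => le_rfl) a1.le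
    have b3 : (∑ i, w i) * (a - c) ≤ (∑ i, w i) * η := mul_le_mul_of_nonneg_left (by linarith) hW
    rw [b1] at b2
    linarith

/-- [TOT] LIMITS OF MEMBERS OF THE LAST CLASS: class, unit directions, weighted degrees, exact total numbers -/
theorem tot_dg (nsl : NSLx (M + 1)) (aen : AENx (M + 1)) (zm : ZMYR M) (ctx : Ctx M A C v)
    (ok : Okd (M + 1) A C B D) {m g r : ℕ} {w : Fin (M + 1) → ℝ} {ρ : ℝ} (hw : Wts M g w ρ) {S : ℕ → Sp}
    (s : ∀ j, MSys (S j) (M + 1) (lin g) (Fin r)) (hs : ∀ j, YM (D w m) v g r w ρ (S j) (s j)) :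
    ∃ Q : ℕ → ℕ → ℕ → Prop, (∀ i j, ∀ᶠ k in UF, Q i j k) ∧ ∀ (J : ℕ → ℕ) (h : Slo S Q J),
      (∃ t : MSys (dsp S J h.lim) (M + 1) (lin g) (Fin r), (∀ᶠ k in UF, ob t k = ob (s (J k)) k) ∧ D w m _ g r t) ∧
      ∀ t : MSys (dsp S J h.lim) (M + 1) (lin g) (Fin r), (∀ᶠ k in UF, ob t k = ob (s (J k)) k) →
        Inv v t ∧ WDs w t ∧ AllE (fun _ t R => Tot w t R) _ t (rbot _) := by
  have hne : Nonempty (Fin r) := (hs 0).inv.1
  have hw0 : ∀ j, 0 ≤ w j := fun j => zero_le_one.trans (hw.ge j)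
  obtain ⟨qn, hqn⟩ := exists_surjective_nat ℚ
  have h0 : ∀ n : ℕ, ∃ Q : ℕ → ℕ → ℕ → Prop, (∀ i j, ∀ᶠ k in UF, Q i j k) ∧
      ∀ (J : ℕ → ℕ) (h : Slo S Q J) (t : MSys (dsp S J h.lim) (M + 1) (lin g) (Fin r)),
        (∀ᶠ k in UF, ob t k = ob (s (J k)) k) → (0 : ℝ) ≤ qn n → (∀ i, w i * qn n < 1) →
          AllE (fun _ t R => volKO t R (qn n) = (M + 1 : ℕ) - (∑ i, w i) * qn n) _ t (rbot _) := by
    intro n
    by_cases hn : (0 : ℝ) ≤ qn n ∧ ∀ i, w i * qn n < 1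
    · obtain ⟨Q, hQ, h1⟩ := tot_c nsl aen zm ctx ok hw s hs hn.1 hn.2
      exact ⟨Q, hQ, fun J h t ht _ _ => h1 J h t ht⟩
    · exact ⟨fun _ _ _ => True, fun _ _ => Eventually.of_forall fun _ => trivial,
        fun _ _ _ _ a b => absurd ⟨a, b⟩ hn⟩
  choose Q1 hQ1 h1 using h0
  obtain ⟨Q2, hQ2, h2⟩ := ok.dg w m g r S (fun j => ob (s j)) fun j => lft_ob (hs j).cl
  obtain ⟨Q3, hQ3, h3⟩ := Pool.Agent.Helper55.INV.uo_dg (v := v) S (fun j => ob (s j)) fun j =>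
    Pool.Agent.Helper55.INV.uo_ob.mpr (hs j).inv.2
  obtain ⟨Q4, hQ4, h4⟩ := (Pool.Agent.Helper26.OUT.wdA w (Fin r)).diagCl 0 S (fun j => ob (s j)) fun j =>
    (Pool.Agent.Helper26.OUT.WDs_pd hw0).mp (hs j).wd
  refine ⟨fun i j k => Q1 (Nat.unpair i).1 (Nat.unpair i).2 j k ∧ Q2 i j k ∧ Q3 i j k ∧ Q4 i j k, fun i j =>
    (hQ1 _ _ j).and ((hQ2 i j).and ((hQ3 i j).and (hQ4 i j))), fun J h => ⟨h2 J h.right.left, fun t ht => ?_⟩⟩
  have ht' : ∀ᶠ k in UF, ob (s (J k)) k = ob t k := ht.mono fun k hk => hk.symm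
  refine ⟨⟨hne, Pool.Agent.Helper55.INV.uo_ob.mp (Pool.Agent.Helper55.INV.uo_inv _ _ _ ht' (h3 J h.right.right.left))⟩,
    (Pool.Agent.Helper26.OUT.WDs_pd hw0).mpr ((Pool.Agent.Helper26.OUT.wdA w (Fin r)).inv 0 _ _ _ ht'
      (h4 J h.right.right.right)), fun T p A' hA' => ?_⟩
  refine tot_of_rat hw.mono hw.ge fun q hq0 hq1 => ?_
  obtain ⟨n, rfl⟩ := hqn q
  exact h1 n J (Slo.prm (E := Q1) h.left n) t ht hq0 hq1 T p A' hA'

end lim

end

end Pool.Agent.Helper32.DGY
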