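import Pool.Agent.Helper36.AM.St

/-! FRAMES AS FINITE DATA: an approximate finite predicate of frames of labels; frames have it for all `δ > 0`, and
finite data which have it for all `δ > 0` are frames; moving of the window. -/

set_option autoImplicit false

namespace Pool.Agent.Helper32.DGY

open Finset Filter Topology Pool.Agent.Helper69.RK Pool.Agent.Helper31.EC Pool.Agent.Helper31.EC.Sp
open Pool.Agent.Helper40.EL Pool.Agent.Helper89.LX Pool.Agent.Helper84.MT Pool.Agent.Helper49.MD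
open Pool.Agent.Helper36.AM

noncomputable section

variable {S : Sp} {M : ℕ}

/-- finite data of a frame -/
structure FrD (Ω : Type) (M : ℕ) where
  X : Ω → Fin M → ℝ
  P : Ω → Fin M → MvPolynomial (Fin M) ℝ

/-- the literal conditions for the charts -/
def FrL {Ω : Type} (La : Fin M → ℝ) (P : Ω → Fin M → MvPolynomial (Fin M) ℝ) : Prop :=
  (∀ ω j, ∀ i ∈ (P ω j).vars, i < j) ∧ ∀ ω j, ∀ a ∈ (P ω j).support, a ≠ 0 → ∑ i, (a i : ℝ) * La i < La j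

/-- a frame of a finite label, up to `δ` -/
def FrP (F : FSp) (l : FLab F) (Q : F.Ω → Fin M → ℝ) (La : Fin M → ℝ) (x : FrD l.T.Ω M) (δ : ℝ) : Prop :=
  FrL La x.P ∧
  (∀ ω ω', l.T.μ ω ≠ 0 → l.T.μ ω' ≠ 0 → l.T.Z ω ω' → l.V ω ω' → x.P ω = x.P ω') ∧
  (∃ c, tmc F δ c ∧ ∀ ω, l.T.μ ω ≠ 0 → ∀ i, |x.X ω i| ≤ c) ∧
  (∃ c, tmc F δ c ∧ ∀ ω, l.T.μ ω ≠ 0 → ∀ j a, |(x.P ω j).coeff a| ≤ c) ∧
  (∃ c, tmc F δ c ∧ ∀ ω, l.T.μ ω ≠ 0 → ∀ j, |Q (l.p.π ω) j -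
    (MvPolynomial.eval (fun i => dlF F (La i) * x.X ω i) (x.P ω j) + dlF F (La j) * x.X ω j)| ≤ c * dlF F 1)

theorem FrP.mono {F : FSp} {l : FLab F} {Q : F.Ω → Fin M → ℝ} {La : Fin M → ℝ} {x : FrD l.T.Ω M} {δ δ' : ℝ}
    (h : δ ≤ δ') (hx : FrP F l Q La x δ) : FrP F l Q La x δ' := by
  obtain ⟨h1, h2, ⟨c3, b3, h3⟩, ⟨c4, b4, h4⟩, ⟨c5, b5, h5⟩⟩ := hx
  exact ⟨h1, h2, ⟨c3, b3.mono h, h3⟩, ⟨c4, b4.mono h, h4⟩, ⟨c5, b5.mono h, h5⟩⟩

/-- tame constants of the space of a label -/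
theorem sp_Sub' (l : Lab S) {K : ℕ → ℝ} : l.sp.Sub K ↔ S.Sub K := by
  have e : (fun k => Real.logb 2 (K k + 2) / (l.sp.F k).n) = fun k => Real.logb 2 (K k + 2) / (S.F k).n := by
    funext k
    have h1 : (l.sp.F k).n = (S.F k).n := (l k).hn
    rw [h1]
  constructor
  · rintro ⟨h1, h2⟩
    refine ⟨h1, ?_⟩
    rw [← e]
    exact h2
  · rintro ⟨h1, h2⟩
    refine ⟨h1, ?_⟩
    rw [e]
    exact h2

/-- FRAMES HAVE THE FINITE PREDICATE -/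
theorem FrP_of {Q : S.VV M} {l : Lab S} {La : Fin M → ℝ} (f : Frm Q l La) {δ : ℝ} (hδ : 0 < δ) :
    ∀ᶠ k in UF, FrP (S.F k) (l k) (Q.v k) La ⟨f.X.v k, f.P k⟩ δ := by
  obtain ⟨K, hK, h3⟩ := f.X.bd
  obtain ⟨K4, hK4, h4⟩ := f.bd
  obtain ⟨K5, hK5, h5⟩ := f.pt
  filter_upwards [f.fn, h3, h4, h5, Sub.tmc ((sp_Sub' l).mp hK) hδ, Sub.tmc hK4 hδ, Sub.tmc hK5 hδ] with
    k a2 a3 a4 a5 b3 b4 b5
  exact ⟨⟨f.tri k, f.red k⟩, a2, ⟨K k, b3, a3⟩, ⟨K4 k, b4, a4⟩, ⟨K5 k, b5, a5⟩⟩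

/-- FRAMES FROM FINITE DATA -/
theorem frm_of {Q : S.VV M} {l : Lab S} {La : Fin M → ℝ} (x : ∀ k, FrD (l k).T.Ω M)
    (hx : ∀ δ : ℝ, 0 < δ → ∀ᶠ k in UF, FrP (S.F k) (l k) (Q.v k) La (x k) δ) :
    ∃ f : Frm Q l La, (∀ k, f.X.v k = (x k).X) ∧ (∀ᶠ k in UF, f.P k = (x k).P) ∧
      ∀ k, FrL La (x k).P → f.P k = (x k).P := by
  classical
  have hX : ∃ K : ℕ → ℝ, S.Sub K ∧ ∀ᶠ k in UF, ∀ ω, (l k).T.μ ω ≠ 0 → ∀ i, |(x k).X ω i| ≤ K k :=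
    (sub_iff (S := S) fun k c => ∀ ω, (l k).T.μ ω ≠ 0 → ∀ i, |(x k).X ω i| ≤ c).mpr fun δ hδ =>
      (hx δ hδ).mono fun k hk => hk.2.2.1
  have hB : ∃ K : ℕ → ℝ, S.Sub K ∧ ∀ᶠ k in UF, ∀ ω, (l k).T.μ ω ≠ 0 → ∀ j a, |((x k).P ω j).coeff a| ≤ K k :=
    (sub_iff (S := S) fun k c => ∀ ω, (l k).T.μ ω ≠ 0 → ∀ j a, |((x k).P ω j).coeff a| ≤ c).mpr fun δ hδ =>
      (hx δ hδ).mono fun k hk => hk.2.2.2.1
  have hP : ∃ K : ℕ → ℝ, S.Sub K ∧ ∀ᶠ k in UF, ∀ ω, (l k).T.μ ω ≠ 0 → ∀ j, |Q.v k ((l k).p.π ω) j -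
      (MvPolynomial.eval (fun i => dlF (S.F k) (La i) * (x k).X ω i) ((x k).P ω j) +
        dlF (S.F k) (La j) * (x k).X ω j)| ≤ K k * dlF (S.F k) 1 :=
    (sub_iff (S := S) fun k c => ∀ ω, (l k).T.μ ω ≠ 0 → ∀ j, |Q.v k ((l k).p.π ω) j -
      (MvPolynomial.eval (fun i => dlF (S.F k) (La i) * (x k).X ω i) ((x k).P ω j) +
        dlF (S.F k) (La j) * (x k).X ω j)| ≤ c * dlF (S.F k) 1).mpr fun δ hδ =>
      (hx δ hδ).mono fun k hk => hk.2.2.2.2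
  have h0 : ∀ᶠ k in UF, FrL La (x k).P := (hx 1 one_pos).mono fun k hk => hk.1
  have h1 : ∀ᶠ k in UF, ∀ ω ω', (l k).T.μ ω ≠ 0 → (l k).T.μ ω' ≠ 0 → (l k).T.Z ω ω' → (l k).V ω ω' →
      (x k).P ω = (x k).P ω' := (hx 1 one_pos).mono fun k hk => hk.2.1
  obtain ⟨P, hPd⟩ : ∃ P : ∀ k, (l k).T.Ω → Fin M → MvPolynomial (Fin M) ℝ,
      P = fun k => if FrL La (x k).P then (x k).P else fun _ _ => 0 := ⟨_, rfl⟩
  have e1 : ∀ k, FrL La (x k).P → P k = (x k).P := fun k hk => by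
    rw [hPd]
    exact if_pos hk
  have e0 : ∀ k, ¬ FrL La (x k).P → P k = fun _ _ => 0 := fun k hk => by
    rw [hPd]
    exact if_neg hk
  have hL : ∀ k, FrL La (P k) := fun k => by
    by_cases hk : FrL La (x k).P
    · rw [e1 k hk]
      exact hk
    · rw [e0 k hk]
      refine ⟨fun ω j i hi => ?_, fun ω j a ha => ?_⟩
      · simp at hi
      · simp at ha
  have e2 : ∀ᶠ k in UF, P k = (x k).P := h0.mono e1
  refine ⟨⟨⟨fun k => (x k).X, ?_⟩, P, fun k => (hL k).1, fun k => (hL k).2, ?_, ?_, ?_⟩, fun k => rfl, e2, e1⟩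
  · obtain ⟨K, hK, h2⟩ := hX
    exact ⟨K, (sp_Sub' l).mpr hK, h2⟩
  · filter_upwards [h1, e2] with k a b
    rw [b]
    exact a
  · obtain ⟨K, hK, h2⟩ := hB
    refine ⟨K, hK, ?_⟩
    filter_upwards [h2, e2] with k a b
    rw [b]
    exact a
  · obtain ⟨K, hK, h2⟩ := hP
    refine ⟨K, hK, ?_⟩
    filter_upwards [h2, e2] with k a b
    rw [b]
    exact a

/-! ### moving of the window -/

/-- the coordinates of the moved frame -/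
def FrD.mv {Ω : Type} (x : FrD Ω M) (b : Fin M → ℝ) (n : ℝ) : FrD Ω M :=
  ⟨fun ω j => (2 : ℝ) ^ (b j * n) * x.X ω j, x.P⟩

theorem dlF_pos (F : FSp) (r : ℝ) : 0 < dlF F r := Real.rpow_pos_of_pos (by norm_num) _

theorem dlF_mv (F : FSp) (a b : ℝ) : dlF F b * (2 : ℝ) ^ ((b - a) * F.n) = dlF F a := by
  unfold dlF
  rw [← Real.rpow_add (by norm_num)]
  congr 1
  ring

/-- tame constants, multiplied by `2 ^ (η n)` -/
theorem tmc.mul_rpow {F : FSp} {δ c η : ℝ} (hη : 0 ≤ η) (h : tmc F δ c) :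
    tmc F (δ + η) ((2 : ℝ) ^ (η * F.n) * c) := by
  have hn := F.pos
  have h1 : (1 : ℝ) ≤ 2 ^ (η * F.n) := Real.one_le_rpow (by norm_num) (mul_nonneg hη hn.le)
  refine ⟨mul_nonneg (by linarith) h.1, ?_⟩
  have h2 : (2 : ℝ) ^ (η * F.n) * c + 2 ≤ 2 ^ (η * F.n) * (c + 2) := by nlinarith [h.1]
  have h3 : Real.logb 2 ((2 : ℝ) ^ (η * F.n) * c + 2) ≤ η * F.n + Real.logb 2 (c + 2) := by
    refine (Real.logb_le_logb_of_le (by norm_num) (by nlinarith [h.1]) h2).trans (le_of_eq ?_)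
    rw [Real.logb_mul (by linarith) (by linarith [h.1]), Real.logb_rpow (by norm_num) (by norm_num)]
  rw [div_le_iff₀ hn]
  have h4 := h.2
  rw [div_le_iff₀ hn] at h4
  linarith

/-- MOVING THE WINDOW: a frame with the exponents `La` is a frame with the exponents `La'`, the coordinates change by the
factors `2 ^ ((La' j - La j) n)`; the charts do not change -/
theorem FrP.move {F : FSp} {l : FLab F} {Q : F.Ω → Fin M → ℝ} {La La' : Fin M → ℝ} {x : FrD l.T.Ω M} {δ η : ℝ}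
    (hη : ∀ j, La' j - La j ≤ η) (h0 : 0 ≤ η) (hL : FrL La' x.P) (hx : FrP F l Q La x δ) :
    FrP F l Q La' (x.mv (fun j => La' j - La j) F.n) (δ + η) := by
  obtain ⟨h1, h2, ⟨c3, b3, h3⟩, ⟨c4, b4, h4⟩, ⟨c5, b5, h5⟩⟩ := hx
  refine ⟨hL, h2, ⟨(2 : ℝ) ^ (η * F.n) * c3, tmc.mul_rpow h0 b3, fun ω hω i => ?_⟩,
    ⟨c4, b4.mono (by linarith), h4⟩, ⟨c5, b5.mono (by linarith), fun ω hω j => ?_⟩⟩
  · show |(2 : ℝ) ^ ((La' i - La i) * F.n) * x.X ω i| ≤ _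
    rw [abs_mul, abs_of_pos (Real.rpow_pos_of_pos (by norm_num) _)]
    exact mul_le_mul (Real.rpow_le_rpow_of_exponent_le (by norm_num) (mul_le_mul_of_nonneg_right (hη i) F.pos.le))
      (h3 ω hω i) (abs_nonneg _) (Real.rpow_nonneg (by norm_num) _)
  · have e1 : ∀ i, dlF F (La' i) * (x.mv (fun j => La' j - La j) F.n).X ω i = dlF F (La i) * x.X ω i := fun i => by
      show dlF F (La' i) * ((2 : ℝ) ^ ((La' i - La i) * F.n) * x.X ω i) = _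
      rw [← mul_assoc, dlF_mv]
    rw [e1 j]
    simp_rw [e1]
    exact h5 ω hω j

/-- exponents proportional to the weights: the conditions for the charts do not depend on the window -/
theorem FrL.mv {Ω : Type} {w : Fin M → ℝ} {c c' : ℝ} (h0 : 0 < c) (h0' : 0 < c')
    {P : Ω → Fin M → MvPolynomial (Fin M) ℝ} (h : FrL (fun j => w j * c) P) : FrL (fun j => w j * c') P := by
  refine ⟨h.1, fun ω j a ha ha0 => ?_⟩
  have h1 := h.2 ω j a ha ha0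
  have e : ∀ c : ℝ, ∑ i, (a i : ℝ) * (w i * c) = (∑ i, (a i : ℝ) * w i) * c := fun c => by
    rw [Finset.sum_mul]
    exact Finset.sum_congr rfl fun i _ => by ring
  have h2 : (∑ i, (a i : ℝ) * w i) * c < w j * c := by
    rw [← e]
    exact h1
  show ∑ i, (a i : ℝ) * (w i * c') < w j * c'
  rw [e]
  exact mul_lt_mul_of_pos_right (lt_of_mul_lt_mul_right h2 h0.le) h0'

/-- MOVING THE WINDOW of a frame with the exponents `w j * c` -/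
theorem FrP.mvw {F : FSp} {l : FLab F} {Q : F.Ω → Fin M → ℝ} {w : Fin M → ℝ} {c c' : ℝ} (h0 : 0 < c) (h0' : 0 < c')
    {x : FrD l.T.Ω M} {δ η : ℝ} (hη : ∀ j, w j * |c' - c| ≤ η) (hw : ∀ j, 0 ≤ w j) (hη0 : 0 ≤ η)
    (hx : FrP F l Q (fun j => w j * c) x δ) :
    FrP F l Q (fun j => w j * c') (x.mv (fun j => w j * c' - w j * c) F.n) (δ + η) :=
  hx.move (fun j => by
    have h1 := mul_le_mul_of_nonneg_left (le_abs_self (c' - c)) (hw j)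
    have h2 := hη j
    linarith) hη0 (hx.1.mv h0 h0')

end

end Pool.Agent.Helper32.DGY
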