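import Pool.Agent.Helper32.DGY.Frl
import Pool.Agent.Helper99.MX.Mci

/-! LIMITS OF LEAST CARRIERS: the least carriers `X j` with frames of systems `s j`, one window `c`; the diagonal is a
literal label of the limit which is known to the roundings of the form of the box of its frame; if the number of the
limit is exact then it is the least carrier of the limit. -/

set_option autoImplicit false

namespace Pool.Agent.Helper32.DGY

open Finset Filter Topology Pool.Agent.Helper69.RK Pool.Agent.Helper31.EC Pool.Agent.Helper31.EC.Sp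
open Pool.Agent.Helper40.EL Pool.Agent.Helper89.LX Pool.Agent.Helper84.MT Pool.Agent.Helper49.MD
open Pool.Agent.Helper36.AM Pool.Agent.Helper29.MX
open Pool.Agent.Helper26.BXD Pool.Agent.Helper99.MX
open Pool.Agent.Helper95.VIS (rdm)

noncomputable section

variable {N : ℕ} {E : ℕ → ℕ} {ι : Type}

/-- literal type-labels are K-labels of the finest resolution -/
theorem tlb_klb {S : Sp} {s : MSys S N E ι} {c : ℝ} {X : Rsl S} (h : TLb s c (Lab.ofZ X)) :
    KLb s (rbot S) c (Lab.ofZ X) := by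
  have e1 : ∀ k, (Lab.ofZ X k).leak (fc (rbot S k)) = 0 := fun k => by
    rw [Lab.ofZ_leak X (fun k => fc (rbot S k)) k]
    exact h_zero (fc_mono bot_le)
  refine ⟨fun i => ?_, Eventually.of_forall e1⟩
  rcases i with _ | i
  · have e2 : (fun k => (Lab.ofZ X k).leak (Pool.Agent.Helper87.NSL.cndR s (rbot S) c none k)) = fun _ => 0 := funext e1
    rw [e2]
    exact Nul_zero S
  · exact h i

section

variable [Finite ι] {w : Fin N → ℝ} {c : ℝ} {κ : ℕ} {S : ℕ → Sp}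

/-- the slowness conditions for the roundings of the forms of the boxes of the frames -/
def canE {s : ∀ j, MSys (S j) N E ι} {X : ∀ j, Rsl (S j)} {La : Fin N → ℝ}
    (f : ∀ j, Frm (s j).Q (Lab.ofZ (X j)) La) (D κ : ℕ) (j k : ℕ) : Prop :=
  nulE S (fun j k => h (fc (X j k)) (fc (Setoid.ker fun ω : ((S j).F k).Ω => rdm ((S j).F k).n (gfx (f j) D κ k ω)))) j k ∧
    ∀ ω, fP (f j) k ω = (f j).P k ω

/-- limits of `CAN` -/
theorem can_dg {s : ∀ j, MSys (S j) N E ι} {X : ∀ j, Rsl (S j)} {La : Fin N → ℝ} {D : ℕ}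
    (f : ∀ j, Frm (s j).Q (Lab.ofZ (X j)) La) {J : ℕ → ℕ} (hJ : Tendsto J UF atTop)
    (hn : Tendsto (fun k => ((S (J k)).F k).n) UF atTop) (h : ∀ᶠ k in UF, canE f D κ (J k) k)
    {Q : (dsp S J hn).VV N} (F : Frm Q (Lab.ofZ (S := dsp S J hn) fun k => X (J k) k) La)
    (hF : ∀ k, F.P k = (f (J k)).P k) : CAN F D κ := by
  have h1 := nul_dg (S := S) (f := fun j k => Pool.Agent.Helper31.EC.h (fc (X j k)) (fc (Setoid.ker
    fun ω : ((S j).F k).Ω => rdm ((S j).F k).n (gfx (f j) D κ k ω)))) hJ hn (h.mono fun k hk => hk.1)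
  refine h1.congr' ?_
  filter_upwards [h, fP_ev F] with k a b
  have e1 : ∀ ω : ((S (J k)).F k).Ω, gfx F D κ k ω = gfx (f (J k)) D κ k ω := by
    intro ω
    have e3 : scl La (dsp S J hn) k = scl La (S (J k)) k := rfl
    unfold gfx gfm
    rw [b ω, a.2 ω, hF k, e3]
  have e0 : (fun ω : ((S (J k)).F k).Ω => rdm ((S (J k)).F k).n (gfx (f (J k)) D κ k ω)) = fun ω =>
      rdm ((dsp S J hn).F k).n (gfx F D κ k ω) := funext fun ω => by
    rw [e1 ω]
    rfl
  exact congrArg (fun g : ((S (J k)).F k).Ω → Matrix _ _ ℝ => Pool.Agent.Helper31.EC.h (fc (F := (S (J k)).F k)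
    (X (J k) k)) (fc (F := (S (J k)).F k) (Setoid.ker g)) / ((S (J k)).F k).n) e0

/-- [CARR] LIMITS OF LEAST CARRIERS, one window -/
theorem mc_dg (hw : ∀ j, 1 ≤ w j) (hκ : ∀ j, w j ≤ κ) (h0 : 0 ≤ c) (h1 : ∀ j, w j * c < 1)
    (s : ∀ j, MSys (S j) N E ι) (X : ∀ j, Rsl (S j)) (hX : ∀ j, Mc (s j) (rbot (S j)) w c (X j))
    (f : ∀ j, Frm (s j).Q (Lab.ofZ (X j)) fun i => w i * c) : ∃ Q : ℕ → ℕ → ℕ → Prop, (∀ i j, ∀ᶠ k in UF, Q i j k) ∧
      ∀ (J : ℕ → ℕ) (h : Slo S Q J) (t : MSys (dsp S J h.lim) N E ι), (∀ᶠ k in UF, ob t k = ob (s (J k)) k) →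
        KLb t (rbot _) c (Lab.ofZ (S := dsp S J h.lim) fun k => X (J k) k) ∧
        ∃ F : Frm t.Q (Lab.ofZ (S := dsp S J h.lim) fun k => X (J k) k) fun i => w i * c,
          (∀ k, F.X.v k = (f (J k)).X.v k) ∧ (∀ k, F.P k = (f (J k)).P k) ∧ CAN F ((κ + 1) ^ N) κ ∧
          ((N : ℝ) - (∑ i, w i) * c ≤ volKO t (rbot _) c → Mc t (rbot _) w c fun k => X (J k) k) := by
  have hT : ∀ j, TLb (s j) c (Lab.ofZ (X j)) := fun j i => (hX j).kl.1 (some i)
  have hC : ∀ j, CAN (f j) ((κ + 1) ^ N) κ := fun j => mcn hw hκ h0 (fun i => (h1 i).le) (hX j) (f j) le_rfl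
  obtain ⟨Q1, hQ1, h2⟩ := frl s X hT f
  refine ⟨fun i j k => Q1 i j k ∧ canE f ((κ + 1) ^ N) κ j k, fun i j => (hQ1 i j).and ((nulE_ev (S := S)
    (f := fun j k => Pool.Agent.Helper31.EC.h (fc (X j k)) (fc (Setoid.ker fun ω : ((S j).F k).Ω =>
      rdm ((S j).F k).n (gfx (f j) ((κ + 1) ^ N) κ k ω)))) (hC j)).and (fP_ev (f j))), fun J h t ht => ?_⟩
  obtain ⟨h3, F, hF1, hF2⟩ := h2 J h.left t ht
  have h4 := can_dg (κ := κ) (D := (κ + 1) ^ N) f h.tend h.lim ((h.slow 0).mono fun k hk => hk.2) F hF2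
  exact ⟨tlb_klb h3, F, hF1, hF2, h4, fun hv => mcc hw hκ h0 h1 hv (Eventually.of_forall fun k =>
    inf_le_left.trans bot_le) (tlb_klb h3) F h4⟩

end

end

end Pool.Agent.Helper32.DGY
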