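import Pool.Agent.Helper7.RD.Fx
import Pool.Agent.Helper59.OKD.Ta

/-! THE GRAM DETERMINANT OF THE ROWS OF A FRAME is at most `2 ^ (2 (∑ La + ε) n)`. -/

set_option autoImplicit false

namespace Pool.Agent.Helper32.DGY

open Finset Filter Topology Matrix Pool.Agent.Helper69.RK Pool.Agent.Helper31.EC Pool.Agent.Helper31.EC.Sp
open Pool.Agent.Helper40.EL Pool.Agent.Helper84.MT Pool.Agent.Helper89.LX
open Pool.Agent.Helper36.AM (Frm inv inv_deg)
open Pool.Agent.Helper7.GZ (jac frow Bq Bq_one Bq_Sub inv_cube dl_inv_eq)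
open Pool.Agent.Helper59.OKD (lc lc_nonneg pd_le)

noncomputable section

/-- the Gram determinant of a square matrix with rows of the sizes `K d j` -/
theorem gram_det {N : ℕ} (J : Matrix (Fin N) (Fin N) ℝ) {d : Fin N → ℝ} (hd : ∀ j, 1 ≤ d j) {K : ℝ} (hK : 0 ≤ K)
    (h : ∀ j i, |J j i| ≤ K * d j) :
    (1 + J.transpose * J).det ≤ (N.factorial * (1 + N * K ^ 2) ^ N) * (∏ j, d j) ^ 2 := by
  classical
  have hd0 : ∀ j, 0 < d j := fun j => zero_lt_one.trans_le (hd j)
  obtain ⟨G, hG⟩ : ∃ G : Matrix (Fin N) (Fin N) ℝ, G = Matrix.of fun j i =>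
    (if j = i then ((d j)⁻¹) ^ 2 else 0) + ∑ a, (J j a / d j) * (J i a / d i) := ⟨_, rfl⟩
  have e1 : 1 + J * J.transpose = Matrix.diagonal d * G * Matrix.diagonal d := by
    ext j i
    rw [Matrix.mul_diagonal, Matrix.diagonal_mul, hG, Matrix.of_apply, Matrix.add_apply, Matrix.mul_apply,
      Matrix.one_apply, mul_add, add_mul]
    congr 1
    · by_cases hji : j = i
      · rw [if_pos hji, if_pos hji, hji]
        have := (hd0 i).ne'
        field_simp
      · rw [if_neg hji, if_neg hji, mul_zero, zero_mul]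
    · rw [Finset.mul_sum, Finset.sum_mul]
      refine Finset.sum_congr rfl fun a _ => ?_
      rw [Matrix.transpose_apply]
      have h1 := (hd0 i).ne'
      have h2 := (hd0 j).ne'
      field_simp
  have e2 : (1 + J.transpose * J).det = (∏ j, d j) ^ 2 * G.det := by
    rw [Matrix.det_one_add_mul_comm, e1, Matrix.det_mul, Matrix.det_mul, Matrix.det_diagonal]
    ring
  have h3 : ∀ i j, |G i j| ≤ 1 + N * K ^ 2 := by
    intro j i
    rw [hG, Matrix.of_apply]
    refine (abs_add_le _ _).trans (add_le_add ?_ ?_)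
    · split_ifs with hji
      · rw [abs_of_nonneg (by positivity)]
        exact pow_le_one₀ (inv_nonneg.mpr (hd0 j).le) (inv_le_one_of_one_le₀ (hd j))
      · rw [abs_zero]
        exact zero_le_one
    · have h4 : ∀ j a, |J j a / d j| ≤ K := by
        intro j a
        rw [abs_div, abs_of_pos (hd0 j), div_le_iff₀ (hd0 j)]
        exact h j a
      calc |∑ a, (J j a / d j) * (J i a / d i)| ≤ ∑ a, |(J j a / d j) * (J i a / d i)| :=
            Finset.abs_sum_le_sum_abs _ _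
        _ ≤ ∑ _a : Fin N, K ^ 2 := by
            refine Finset.sum_le_sum fun a _ => ?_
            rw [abs_mul, sq]
            exact mul_le_mul (h4 j a) (h4 i a) (abs_nonneg _) hK
        _ = N * K ^ 2 := by
            rw [Finset.sum_const, Finset.card_univ, Fintype.card_fin, nsmul_eq_mul]
  have h5 : |G.det| ≤ N.factorial * (1 + N * K ^ 2) ^ N := by
    have h6 := Matrix.det_le (A := G) (abv := AbsoluteValue.abs) (x := 1 + N * K ^ 2) h3
    rw [Fintype.card_fin, nsmul_eq_mul] at h6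
    exact h6
  rw [e2, mul_comm]
  exact mul_le_mul_of_nonneg_right ((le_abs_self _).trans h5) (sq_nonneg _)

variable {S : Sp} {M : ℕ}

/-- THE GRAM DETERMINANT OF THE ROWS OF A FRAME -/
theorem gram_frow {Q : S.VV M} {l : Lab S} {La : Fin M → ℝ} (f : Frm Q l La) {κ : ℕ}
    (hκ : ∀ k ω j, (f.P k ω j).totalDegree ≤ κ) (h0 : ∀ j, 0 ≤ La j) {e : ℝ} (he : 0 < e) :
    ∀ᶠ k in UF, ∀ ω : (l k).T.Ω, (l k).T.μ ω ≠ 0 →
      (1 + (jac (frow f k ω) (Q.v k ((l k).p.π ω))).transpose * jac (frow f k ω) (Q.v k ((l k).p.π ω))).det ≤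
        2 ^ (2 * (∑ j, La j + e) * (S.F k).n) := by
  obtain ⟨Kc, hKc, hc⟩ := f.bd
  obtain ⟨B, hB1, hB⟩ := Pool.Agent.Helper63.FRT.exists_coef_bd M ((κ + 1) ^ M)
  obtain ⟨Kq, hKq, hq⟩ := Q.bd
  obtain ⟨K, hK⟩ : ∃ K : ℕ → ℝ, K = fun k => lc M ((κ + 1) ^ M) (B * Bq M κ (Kc k) M) (1 + Kq k) := ⟨_, rfl⟩
  have hB0 : (0 : ℝ) ≤ B := by linarith
  have hKs : S.Sub K := by
    rw [hK]
    unfold lc
    exact (S.Sub_const (by positivity)).mul (((S.Sub_const hB0).mul (Bq_Sub hKc M κ M)).mul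
      ((S.Sub_const (by positivity)).mul (Sub_pow' ((S.Sub_const zero_le_one).add hKq) _)))
  have hE : S.Sub (fun k => M.factorial * (1 + M * K k ^ 2) ^ M) :=
    (S.Sub_const (by positivity)).mul (Sub_pow' ((S.Sub_const zero_le_one).add ((S.Sub_const
      (Nat.cast_nonneg M)).mul (Sub_pow' hKs 2))) M)
  filter_upwards [hc, hq, hKc.1, hKq.1, hKs.1, hE.eventually_le (show 0 < 2 * e by linarith)] with k c1 c2 c3 c4 c5 c6
  intro ω hω
  have d1 : ∀ j, (1 : ℝ) ≤ (S.dl (La j) k)⁻¹ := by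
    intro j
    rw [dl_inv_eq]
    exact Real.one_le_rpow (by norm_num) (mul_nonneg (h0 j) (S.F k).pos.le)
  have h1 : ∀ j a, |jac (frow f k ω) (Q.v k ((l k).p.π ω)) j a| ≤ K k * (S.dl (La j) k)⁻¹ := by
    intro j a
    show |MvPolynomial.eval (Q.v k ((l k).p.π ω)) (MvPolynomial.pderiv a (MvPolynomial.C (S.dl (La j) k)⁻¹ *
      inv (f.P k ω) j))| ≤ _
    rw [MvPolynomial.pderiv_C_mul, map_mul, MvPolynomial.eval_C, abs_mul,
      abs_of_pos (inv_pos.2 (S.dl_pos _ _)), mul_comm]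
    apply mul_le_mul_of_nonneg_right _ (inv_nonneg.2 (S.dl_pos _ _).le)
    rw [hK]
    refine pd_le (P := inv (f.P k ω)) (fun j => inv_deg (fun j => hκ k ω j) j)
      (mul_nonneg hB0 (zero_le_one.trans (Bq_one M κ c3 M))) (fun j a => ?_) (by linarith) (fun i => ?_) a j
    · exact hB (inv (f.P k ω) j) (inv_deg (fun j => hκ k ω j) j) (Bq M κ (Kc k) M) (fun y hy =>
        inv_cube (f.tri k ω) (fun j => hκ k ω j) c3 (fun j a => c1 ω hω j a) y (fun i => by
          rw [abs_le]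
          have := hy i
          constructor <;> linarith) M j j.2) a
    · have h2 := c2 ((l k).p.π ω) ((l k).p.supp ω hω) i
      linarith
  have h2 := gram_det (jac (frow f k ω) (Q.v k ((l k).p.π ω))) d1 c5 h1
  have h3 : (∏ j, (S.dl (La j) k)⁻¹) ^ 2 = 2 ^ (2 * (∑ j, La j) * (S.F k).n) := by
    have h4 : ∏ j, (S.dl (La j) k)⁻¹ = 2 ^ ((∑ j, La j) * (S.F k).n) := by
      rw [Finset.sum_mul, Real.rpow_sum_of_pos (by norm_num)]
      exact Finset.prod_congr rfl fun j _ => dl_inv_eq _ _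
    rw [h4, ← Real.rpow_natCast, ← Real.rpow_mul (by norm_num)]
    congr 1
    push_cast
    ring
  rw [h3] at h2
  refine h2.trans ?_
  have h5 : (2 : ℝ) ^ (2 * (∑ j, La j + e) * (S.F k).n) = 2 ^ (2 * e * (S.F k).n) * 2 ^ (2 * (∑ j, La j) * (S.F k).n) := by
    rw [← Real.rpow_add (by norm_num)]
    congr 1
    ring
  rw [h5]
  exact mul_le_mul_of_nonneg_right (by linarith) (by positivity)

end

end Pool.Agent.Helper32.DGY
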