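import Pool.Agent.Helper32.DGY.Tot
import Pool.Agent.Helper32.DGY.Car
import Pool.Agent.Helper32.DGY.Gram
import Pool.Agent.Helper70.CPW.Low

/-! [AEN] a zoom over a literal type-label in the coordinates of a frame which is stable on all events: the number of the
system is exact on all events of all extensions. -/

set_option autoImplicit false

namespace Pool.Agent.Helper32.DGY

open Finset Filter Topology Matrix Pool.Agent.Helper69.RK Pool.Agent.Helper31.EC Pool.Agent.Helper31.EC.Sp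
open Pool.Agent.Helper40.EL Pool.Agent.Helper89.LX Pool.Agent.Helper84.MT Pool.Agent.Helper49.MD
open Pool.Agent.Helper36.AM Pool.Agent.Helper29.MX
open Pool.Agent.Helper7.RD (FD0 gz_isX gz_volKO)
open Pool.Agent.Helper81.CPY (zim pjb typ_im)
open Pool.Agent.Helper70.CPW (pzI winI low_of_zoom volKO_rig)

noncomputable section

variable {S : Sp} {N : ℕ} {E E' : ℕ → ℕ} {ι : Type}

/-- [AEN] -/
theorem aen [Finite ι] {s : MSys S N E ι} {X : Rsl S} {c e : ℝ} {he : 0 < e} {La : Fin N → ℝ} (hc : 0 ≤ c)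
    (h1 : c + e ≤ 1) (h0 : ∀ j, 0 ≤ La j) (hLe : ∀ j, La j + e ≤ 1) (hT : TLb s c (Lab.ofZ X))
    (f : Frm s.Q (Lab.ofZ X) La) {κ : ℕ} (hκ : ∀ k ω j, (f.P k ω j).totalDegree ≤ κ)
    {z : MSys ((Lab.ofZ X).ovr e he) N E' ι} (hz : Gz s (Lab.ofZ X) c e he f.X z) (hst : Stb 0 z (rbot _)) :
    AllE (fun _ t R => volKO t R c = N - ∑ j, La j) S s (rbot S) := by
  let F : FD0 s.Q (Lab.ofZ X) La := ⟨f, c, e, hc, he, h1, h0, hLe, κ, hκ⟩
  have hup : volKO s (rbot S) c ≤ N - ∑ j, La j := by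
    have h8 := gz_volKO F hz (R := rbot S) (tlb_klb hT) le_rfl zero_le_one
    rw [mul_zero, add_zero] at h8
    have h9 : volKO z (rover (Lab.ofZ X) e he (rbot S)) 0 ≤ N := Pool.Agent.Helper7.RD.volKO_le_M
    have h10 : 0 ≤ e * (N - volKO z (rover (Lab.ofZ X) e he (rbot S)) 0) := mul_nonneg he.le (by linarith)
    exact h8.trans (by linarith [show F.e = e from rfl])
  refine volKO_rig hup fun T p A hA => ?_
  refine low_of_zoom (s := s.im p A hA) (pzI p A hA (F.pz z.Q (gz_isX F hz))) (t := zim p A hA z) rfl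
    (fun b i hb0 hb1 => winI p A hA (hz.win b i hb0 hb1)) ?_ (∑ j, La j) fun e' he' => ?_
  · have h3 := hst _ (pjb p X e he) A hA
    rw [sub_zero] at h3
    exact h3
  · exact typ_im p A hA ((Typ_true (S := S)).mono ((gram_frow f hκ h0 he').mono fun k hk ω hω _ => hk ω hω))

theorem aenx (M : ℕ) : AENx (M + 1) := by
  intro S g r s X c e he La hc h0 h1 hT f κ hκ z hz hst
  exact aen hc ((add_le_add_left (h0 0) e).trans (h1 0)) (fun j => hc.trans (h0 j)) h1 hT f hκ hz hst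

/-- [TOT] from [NSLB] only -/
theorem tot_dgn {M : ℕ} {A : MCl (M + 1)} {C : ℕ → MCl (M + 1)} {B : MCl (M + 1)}
    {D : (Fin (M + 1) → ℝ) → ℕ → MCl (M + 1)} {v : ℕ} (nsl : NSLx (M + 1)) (zm : ZMYR M)
    (ctx : Pool.Agent.Helper94.SEL.Ctx M A C v) (ok : Okd (M + 1) A C B D) {m g r : ℕ} {w : Fin (M + 1) → ℝ} {ρ : ℝ}
    (hw : Wts M g w ρ) {S : ℕ → Sp} (s : ∀ j, MSys (S j) (M + 1) (lin g) (Fin r))
    (hs : ∀ j, YM (D w m) v g r w ρ (S j) (s j)) :
    ∃ Q : ℕ → ℕ → ℕ → Prop, (∀ i j, ∀ᶠ k in UF, Q i j k) ∧ ∀ (J : ℕ → ℕ) (h : Slo S Q J),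
      (∃ t : MSys (dsp S J h.lim) (M + 1) (lin g) (Fin r), (∀ᶠ k in UF, ob t k = ob (s (J k)) k) ∧ D w m _ g r t) ∧
      ∀ t : MSys (dsp S J h.lim) (M + 1) (lin g) (Fin r), (∀ᶠ k in UF, ob t k = ob (s (J k)) k) →
        Inv v t ∧ Pool.Agent.Helper26.OUT.WDs w t ∧ AllE (fun _ t R => Tot w t R) _ t (rbot _) :=
  tot_dg nsl (aenx M) zm ctx ok hw s hs

end

end Pool.Agent.Helper32.DGY
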