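import Pool.Agent.Helper32.DGY.Fin
import Pool.Agent.Helper29.MX.St

/-! LIMITS OF LABELS AND FRAMES: the diagonal of type-labels is a type-label of the limit, the diagonal of frames is a
frame; transport of statements about diagonals to the spaces over the labels. -/

set_option autoImplicit false

namespace Pool.Agent.Helper32.DGY

open Finset Filter Topology Pool.Agent.Helper69.RK Pool.Agent.Helper31.EC Pool.Agent.Helper31.EC.Sp
open Pool.Agent.Helper40.EL Pool.Agent.Helper89.LX Pool.Agent.Helper84.MT Pool.Agent.Helper49.MD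
open Pool.Agent.Helper36.AM Pool.Agent.Helper29.MX

noncomputable section

variable {M : ℕ} {E E' : ℕ → ℕ} {ι : Type} {S : ℕ → Sp}

/-! ### tame constants and null sequences along diagonals -/

/-- the slowness condition for a statement with a tame constant -/
def subE (S : ℕ → Sp) (P : ℕ → ℕ → ℝ → Prop) (j k : ℕ) : Prop :=
  ∃ c, tmc ((S j).F k) (1 / ((j : ℝ) + 1)) c ∧ P j k c

theorem subE_ev {P : ℕ → ℕ → ℝ → Prop} {j : ℕ} (h : ∃ K : ℕ → ℝ, (S j).Sub K ∧ ∀ᶠ k in UF, P j k (K k)) :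
    ∀ᶠ k in UF, subE S P j k :=
  (sub_iff (S := S j) (P j)).mp h _ (by positivity)

theorem sub_dg {P : ℕ → ℕ → ℝ → Prop} {J : ℕ → ℕ} (hJ : Tendsto J UF atTop)
    (hn : Tendsto (fun k => ((S (J k)).F k).n) UF atTop) (h : ∀ᶠ k in UF, subE S P (J k) k) :
    ∃ K : ℕ → ℝ, (dsp S J hn).Sub K ∧ ∀ᶠ k in UF, P (J k) k (K k) := by
  refine (sub_iff (S := dsp S J hn) fun k => P (J k) k).mpr fun δ hδ => ?_
  filter_upwards [h, (inv_tendsto hJ).eventually (gt_mem_nhds hδ)] with k a b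
  obtain ⟨c, hc, hP⟩ := a
  exact ⟨c, hc.mono b.le, hP⟩

/-- the slowness condition for a null sequence -/
def nulE (S : ℕ → Sp) (f : ℕ → ℕ → ℝ) (j k : ℕ) : Prop := |f j k / ((S j).F k).n| ≤ 1 / ((j : ℝ) + 1)

theorem nulE_ev {f : ℕ → ℕ → ℝ} {j : ℕ} (h : Nul (S j) (f j)) : ∀ᶠ k in UF, nulE S f j k := by
  have h1 : Tendsto (fun k => |f j k / ((S j).F k).n|) UF (𝓝 0) := by
    have := (show Tendsto (fun k => f j k / ((S j).F k).n) UF (𝓝 0) from h).abs
    rwa [abs_zero] at this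
  exact (h1.eventually (gt_mem_nhds (show (0 : ℝ) < 1 / ((j : ℝ) + 1) by positivity))).mono fun k hk => hk.le

theorem nul_dg {f : ℕ → ℕ → ℝ} {J : ℕ → ℕ} (hJ : Tendsto J UF atTop)
    (hn : Tendsto (fun k => ((S (J k)).F k).n) UF atTop) (h : ∀ᶠ k in UF, nulE S f (J k) k) :
    Nul (dsp S J hn) (fun k => f (J k) k) := by
  apply squeeze_zero_norm' _ (inv_tendsto hJ)
  filter_upwards [h] with k hk
  rw [Real.norm_eq_abs]
  exact hk

/-! ### windows of the limit -/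

theorem lim_win {s : ∀ j, MSys (S j) M E ι} {J : ℕ → ℕ} {hn : Tendsto (fun k => ((S (J k)).F k).n) UF atTop}
    {t : MSys (dsp S J hn) M E ι} (e : ∀ᶠ k in UF, ob t k = ob (s (J k)) k) (c : ℝ) (i : ι) :
    ∀ᶠ k in UF, (t.lf i).win c k = ((s (J k)).lf i).win c k := lim_cnd e c (some i)

theorem lim_Q {s : ∀ j, MSys (S j) M E ι} {J : ℕ → ℕ} {hn : Tendsto (fun k => ((S (J k)).F k).n) UF atTop}
    {t : MSys (dsp S J hn) M E ι} (e : ∀ᶠ k in UF, ob t k = ob (s (J k)) k) :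
    ∀ᶠ k in UF, t.Q.v k = (s (J k)).Q.v k := by
  filter_upwards [e] with k hk
  exact congrArg FMs.Q hk

/-- limits of labels without leak at the windows `c` of the types -/
theorem tlb_dg [Finite ι] {s : ∀ j, MSys (S j) M E ι} {l : ∀ j, Lab (S j)} {c : ℝ} {J : ℕ → ℕ}
    (hJ : Tendsto J UF atTop) (hn : Tendsto (fun k => ((S (J k)).F k).n) UF atTop)
    (h : ∀ᶠ k in UF, ∀ i, nulE S (fun j k => (l j k).leak (((s j).lf i).win c k)) (J k) k)
    {t : MSys (dsp S J hn) M E ι} (e : ∀ᶠ k in UF, ob t k = ob (s (J k)) k) : TLb t c (dlab l J hn) := by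
  intro i
  have h1 := nul_dg (f := fun j k => (l j k).leak (((s j).lf i).win c k)) hJ hn (h.mono fun k hk => hk i)
  refine h1.congr' ?_
  filter_upwards [lim_win e c i] with k hk
  rw [hk]
  rfl

/-! ### limits of frames -/

section frl

variable {s : ∀ j, MSys (S j) M E ι} {l : ∀ j, Lab (S j)} {c : ℝ} {La : Fin M → ℝ}

/-- the slowness conditions for frames of labels -/
def frE (f : ∀ j, Frm (s j).Q (l j) La) (j k : ℕ) : Prop :=
  FrP ((S j).F k) (l j k) ((s j).Q.v k) La ⟨(f j).X.v k, (f j).P k⟩ (1 / ((j : ℝ) + 1))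

theorem frE_ev (f : ∀ j, Frm (s j).Q (l j) La) (j : ℕ) : ∀ᶠ k in UF, frE f j k :=
  FrP_of (f j) (by positivity)

/-- LIMITS OF FRAMES -/
theorem frm_dg (f : ∀ j, Frm (s j).Q (l j) La) {J : ℕ → ℕ} (hJ : Tendsto J UF atTop)
    (hn : Tendsto (fun k => ((S (J k)).F k).n) UF atTop) (h : ∀ᶠ k in UF, frE f (J k) k)
    {Q : (dsp S J hn).VV M} (e : ∀ᶠ k in UF, Q.v k = (s (J k)).Q.v k) :
    ∃ F : Frm Q (dlab l J hn) La, (∀ k, F.X.v k = (f (J k)).X.v k) ∧ ∀ k, F.P k = (f (J k)).P k := by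
  obtain ⟨F, hF1, _, hF2⟩ := frm_of (S := dsp S J hn) (Q := Q) (l := dlab l J hn) (La := La)
    (fun k => ⟨(f (J k)).X.v k, (f (J k)).P k⟩) (fun δ hδ => by
      filter_upwards [h, e, (inv_tendsto hJ).eventually (gt_mem_nhds hδ)] with k a b d
      rw [b]
      exact FrP.mono d.le a)
  exact ⟨F, hF1, fun k => hF2 k ⟨(f (J k)).tri k, (f (J k)).red k⟩⟩

/-- [FRL] LIMITS OF TYPE-LABELS WITH FRAMES, general labels -/
theorem frl_lab [Finite ι] (s : ∀ j, MSys (S j) M E ι) (l : ∀ j, Lab (S j)) (hl : ∀ j, TLb (s j) c (l j))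
    (f : ∀ j, Frm (s j).Q (l j) La) : ∃ Q : ℕ → ℕ → ℕ → Prop, (∀ i j, ∀ᶠ k in UF, Q i j k) ∧
      ∀ (J : ℕ → ℕ) (h : Slo S Q J) (t : MSys (dsp S J h.lim) M E ι), (∀ᶠ k in UF, ob t k = ob (s (J k)) k) →
        TLb t c (dlab l J h.lim) ∧ ∃ F : Frm t.Q (dlab l J h.lim) La,
          (∀ k, F.X.v k = (f (J k)).X.v k) ∧ ∀ k, F.P k = (f (J k)).P k := by
  refine ⟨fun _ j k => (∀ i, nulE S (fun j k => (l j k).leak (((s j).lf i).win c k)) j k) ∧ frE f j k,
    fun _ j => ?_, fun J h t e => ?_⟩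
  · refine Filter.Eventually.and ?_ (frE_ev f j)
    rw [eventually_all]
    exact fun i => nulE_ev (f := fun j k => (l j k).leak (((s j).lf i).win c k)) (hl j i)
  · exact ⟨tlb_dg h.tend h.lim ((h.slow 0).mono fun k hk => hk.1) e,
      frm_dg f h.tend h.lim ((h.slow 0).mono fun k hk => hk.2) (lim_Q e)⟩

/-- [FRL] literal labels -/
theorem frl [Finite ι] (s : ∀ j, MSys (S j) M E ι) (X : ∀ j, Rsl (S j)) (hl : ∀ j, TLb (s j) c (Lab.ofZ (X j)))
    (f : ∀ j, Frm (s j).Q (Lab.ofZ (X j)) La) : ∃ Q : ℕ → ℕ → ℕ → Prop, (∀ i j, ∀ᶠ k in UF, Q i j k) ∧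
      ∀ (J : ℕ → ℕ) (h : Slo S Q J) (t : MSys (dsp S J h.lim) M E ι), (∀ᶠ k in UF, ob t k = ob (s (J k)) k) →
        TLb t c (Lab.ofZ (S := dsp S J h.lim) fun k => X (J k) k) ∧
          ∃ F : Frm t.Q (Lab.ofZ (S := dsp S J h.lim) fun k => X (J k) k) La,
            (∀ k, F.X.v k = (f (J k)).X.v k) ∧ ∀ k, F.P k = (f (J k)).P k :=
  frl_lab s (fun j => Lab.ofZ (X j)) hl f

end frl

/-! ### transport to the spaces over the labels -/

/-- the limit of the depths -/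
theorem ovr_lim (l : ∀ j, Lab (S j)) (e : ℝ) (he : 0 < e) {J : ℕ → ℕ}
    (hn : Tendsto (fun k => ((S (J k)).F k).n) UF atTop) :
    Tendsto (fun k => (((l (J k)).ovr e he).F k).n) UF atTop := by
  have e1 : (fun k => (((l (J k)).ovr e he).F k).n) = fun k => e * ((S (J k)).F k).n := by
    funext k
    exact (l (J k)).n_over e he k
  rw [e1]
  exact hn.const_mul_atTop he

/-- the diagonal of the spaces over the labels is the space over the diagonal label -/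
theorem dsp_ovr (l : ∀ j, Lab (S j)) (e : ℝ) (he : 0 < e) {J : ℕ → ℕ}
    (hn : Tendsto (fun k => ((S (J k)).F k).n) UF atTop) :
    dsp (fun j => (l j).ovr e he) J (ovr_lim l e he hn) = (dlab l J hn).ovr e he := rfl

/-- slowness conditions for the spaces over the labels -/
theorem Slo.ovr {E : ℕ → ℕ → ℕ → Prop} {J : ℕ → ℕ} (h : Slo S E J) (l : ∀ j, Lab (S j)) (e : ℝ) (he : 0 < e) :
    Slo (fun j => (l j).ovr e he) E J := ⟨h.tend, ovr_lim l e he h.lim, h.slow⟩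

/-- TRANSPORT: diagonals of objects on the spaces over the labels are objects on the space over the diagonal label, with
slowness conditions over the same `J` -/
theorem dg_ovr {K : FK} {P : ℕ → K.Pd} {P' : K.Pd} (hP : DiagTo P P') (l : ∀ j, Lab (S j)) (e : ℝ) (he : 0 < e)
    (x : ∀ j, K.Ob ((l j).ovr e he)) (hx : ∀ j, P j _ (x j)) : ∃ Q : ℕ → ℕ → ℕ → Prop,
      (∀ i j, ∀ᶠ k in UF, Q i j k) ∧ ∀ (J : ℕ → ℕ) (h : Slo S Q J),
        P' ((dlab l J h.lim).ovr e he) (fun k => x (J k) k) := by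
  obtain ⟨Q, hQ, h1⟩ := hP (fun j => (l j).ovr e he) x hx
  exact ⟨Q, hQ, fun J h => h1 J (Slo.ovr h l e he)⟩

end

end Pool.Agent.Helper32.DGY
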