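import Pool.Agent.Helper29.MX.St2
import Pool.Agent.Helper36.FST.Lim
import Pool.Agent.Helper52.MW.Ime
import Pool.Agent.Helper55.INV.Dg

/-! THE DEFICIT OF THE MEMBERS OF THE LAST CLASS: the least carrier of the window `0` is trivial, the frame of the window
`0` is the point up to a constant which is known to the carrier; so the cells of the point of all levels have the deficit
`ρ` on all events of all extensions. This bound is a finite predicate, so it is closed under slow diagonals. -/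

set_option autoImplicit false

namespace Pool.Agent.Helper32.DGY

open Finset Filter Topology Pool.Agent.Helper69.RK Pool.Agent.Helper31.EC Pool.Agent.Helper31.EC.Sp
open Pool.Agent.Helper40.EL Pool.Agent.Helper89.LX Pool.Agent.Helper84.MT Pool.Agent.Helper49.MD
open Pool.Agent.Helper36.AM Pool.Agent.Helper29.MX
open Pool.Agent.Helper36.FST (hcl hcl_eq entA entA_of entA_to)

noncomputable section

variable {M N : ℕ} {E : ℕ → ℕ} {ι : Type} {S T : Sp}

/-- the trivial label -/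
def tlab (S : Sp) : Lab S := fun k => FLab.triv (S.F k)

theorem tlab_KLb (s : MSys S N E ι) (R : Rsl S) (c : ℝ) : KLb s R c (tlab S) := by
  refine ⟨fun i => ?_, Eventually.of_forall fun k => (KZ R).triv k⟩
  have e1 : (fun k => (tlab S k).leak (Pool.Agent.Helper87.NSL.cndR s R c i k)) = fun _ => 0 :=
    funext fun k => FLab.triv_leak _
  rw [e1]
  exact Nul_zero S

/-- the trivial frame of the window `0` -/
theorem tlab_frm (Q : S.VV N) (w : Fin N → ℝ) : Nonempty (Frm Q (tlab S) fun j => w j * 0) := by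
  refine ⟨{
    X := (tlab S).pj.vv Q
    P := fun _ _ _ => 0
    tri := fun k ω j i hi => by
      rw [MvPolynomial.vars_0] at hi
      exact absurd hi (Finset.notMem_empty i)
    red := fun k ω j a ha _ => by
      rw [MvPolynomial.support_zero] at ha
      exact absurd ha (Finset.notMem_empty a)
    fn := Eventually.of_forall fun k ω ω' _ _ _ _ => rfl
    bd := ⟨fun _ => 0, S.Sub_const le_rfl, Eventually.of_forall fun k ω _ j a => by
      rw [MvPolynomial.coeff_zero, abs_zero]⟩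
    pt := ⟨fun _ => 0, S.Sub_const le_rfl, Eventually.of_forall fun k ω _ j => by
      have e1 : S.dl (w j * 0) k = 1 := by
        unfold Sp.dl
        rw [mul_zero, zero_mul, neg_zero, Real.rpow_zero]
      rw [e1, one_mul, map_zero, zero_add, sub_self, abs_zero, zero_mul]⟩ }⟩

/-- the polynomials of a frame with exponents `0` are constants -/
theorem frm0_const {Q : S.VV N} {l : Lab S} {w : Fin N → ℝ} (f : Frm Q l fun j => w j * 0) (k : ℕ)
    (ω : (l.sp.F k).Ω) (j : Fin N) (y : Fin N → ℝ) : MvPolynomial.eval y (f.P k ω j) = (f.P k ω j).coeff 0 := by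
  have h1 : f.P k ω j = MvPolynomial.C ((f.P k ω j).coeff 0) := by
    classical
    ext a
    rw [MvPolynomial.coeff_C]
    by_cases h0 : 0 = a
    · rw [if_pos h0, h0]
    · rw [if_neg h0]
      by_contra ha
      have h2 := f.red k ω j a (MvPolynomial.mem_support_iff.mpr ha) (Ne.symm h0)
      simp only [mul_zero, Finset.sum_const_zero, lt_self_iff_false] at h2
  conv_lhs => rw [h1]
  rw [MvPolynomial.eval_C]

/-- THE CELLS OF THE POINT AND THE CELLS OF A FRAME OF THE WINDOW `0` -/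
theorem frm0_cell {Q : S.VV N} {X : Rsl S} {w : Fin N → ℝ} (f : Frm Q (Lab.ofZ X) fun j => w j * 0) {b : ℝ}
    (hb : b ≤ 1) : PLe (S := S) (fun k => fc (Setoid.ker (Q.cellv b k)))
      (fun k => fc (X k) ⊔ fc (F := S.F k) (Setoid.ker (f.X.cellv b k))) := by
  obtain ⟨K, hK, hp⟩ := f.pt
  have h1 : PLe (S := S) (fun k => fc (Setoid.ker (Q.cellv b k)))
      (fun k => fc (X k ⊓ Setoid.ker (f.X.cellv b k))) := by
    have hK2 : S.Sub (fun k => 1 + (K k + K k)) := (S.Sub_const zero_le_one).add (hK.add hK)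
    refine PLe_cell Q b (fun k => X k ⊓ Setoid.ker (f.X.cellv b k)) _ hK2 ?_
    filter_upwards [hp, f.fn, hK.1] with k c1 c2 c3 ω ω' hω hω' hZ hB i
    have e1 : S.dl (w i * 0) k = 1 := by
      unfold Sp.dl
      rw [mul_zero, zero_mul, neg_zero, Real.rpow_zero]
    have e2 : f.P k ω = f.P k ω' := c2 ω ω' hω hω' hZ hB.1
    have a1 := c1 ω hω i
    have a2 := c1 ω' hω' i
    rw [frm0_const f k ω i, e1, one_mul] at a1
    rw [frm0_const f k ω' i, e1, one_mul, ← e2] at a2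
    have a3 : |f.X.v k ω i - f.X.v k ω' i| ≤ S.dl b k := abs_sub_le_of_floor_eq (S.dl_pos b k) (congrFun hB.2 i)
    have a4 : K k * S.dl 1 k ≤ K k * S.dl b k := mul_le_mul_of_nonneg_left (S.dl_anti hb k) c3
    have a1' : |Q.v k ω i - ((f.P k ω i).coeff 0 + f.X.v k ω i)| ≤ K k * S.dl b k := a1.trans a4
    have a2' : |Q.v k ω' i - ((f.P k ω i).coeff 0 + f.X.v k ω' i)| ≤ K k * S.dl b k := a2.trans a4
    rw [abs_le] at a1' a2' a3 ⊢
    constructor
    · linarith [a1'.1, a2'.2, a3.1]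
    · linarith [a1'.2, a2'.1, a3.2]
  have e1 : (fun k => (fc (X k ⊓ Setoid.ker (f.X.cellv b k)) : FL (S.F k))) =
      fun k => fc (X k) ⊔ fc (F := S.F k) (Setoid.ker (f.X.cellv b k)) := funext fun k => fc_inf _ _
  rw [← e1]
  exact h1

/-- THE LEAST CARRIER OF THE WINDOW `0` IS TRIVIAL -/
theorem mc0_nul {s : MSys S N E ι} {R : Rsl S} {w : Fin N → ℝ} {X : Rsl S} (hX : Mc s R w 0 X) :
    Nul S fun k => H (fc (X k) : FL (S.F k)) := by
  have h1 := hX.min (tlab S) (tlab_KLb s R 0) (tlab_frm s.Q w)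
  have e1 : (fun k => h ((tlab S k).p.map (fc (X k))) (tlab S k).v) = fun k => H (fc (X k) : FL (S.F k)) := by
    funext k
    have e2 : (tlab S k).v = (FLab.triv (S.F k)).p.map ⊥ := by
      rw [FPj.map_bot]
      rfl
    rw [e2]
    show h ((FLab.triv (S.F k)).p.map (fc (X k))) ((FLab.triv (S.F k)).p.map ⊥) = _
    rw [FPj.h_map, h_bot]
  rw [e1] at h1
  exact h1

/-- the entropy of the cells of the point, from the frame of the window `0` -/
theorem mc0_H {s : MSys S N E ι} {R : Rsl S} {w : Fin N → ℝ} {X : Rsl S} (hX : Mc s R w 0 X)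
    (f : Frm s.Q (Lab.ofZ X) fun j => w j * 0) {b : ℝ} (hb : b ≤ 1) : H (s.Q.dg b) ≤
      ul (fun k => h (fc (Setoid.ker (f.X.cellv b k)) : FL (Lab.ofZ X k).T) (Lab.ofZ X k).v / (S.F k).n) := by
  obtain ⟨u1, e1⟩ := hcl_eq s.Q b
  rw [e1]
  have u2 : Pool.Agent.Helper31.EC.UB (fun k => h (fc (Setoid.ker (f.X.cellv b k)) : FL (Lab.ofZ X k).T)
      (Lab.ofZ X k).v / (S.F k).n) := Pool.Agent.Helper3.MX.UB_cell (S := (Lab.ofZ X).sp) f.X b fun k => (Lab.ofZ X k).v
  have n1 := frm0_cell f hb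
  have n2 := mc0_nul hX
  have t1 := ((ul_tendsto u2).add (show Tendsto _ UF (𝓝 0) from n1)).add (show Tendsto _ UF (𝓝 0) from n2)
  rw [add_zero, add_zero] at t1
  refine le_of_tendsto_of_tendsto (ul_tendsto u1) t1 (Eventually.of_forall fun k => ?_)
  show hcl (S.F k) b (s.Q.v k) ≤ h (fc (Setoid.ker (f.X.cellv b k)) : FL (S.F k)) (fc (X k)) / (S.F k).n +
    h (fc (Setoid.ker (s.Q.cellv b k)) : FL (S.F k)) (fc (X k) ⊔ fc (Setoid.ker (f.X.cellv b k))) / (S.F k).n +
      H (fc (X k) : FL (S.F k)) / (S.F k).n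
  unfold hcl
  rw [← add_div, ← add_div]
  apply div_le_div_of_nonneg_right _ (S.F k).pos.le
  show H (fc (Setoid.ker (s.Q.cellv b k)) : FL (S.F k)) ≤ _
  have h1 : H (fc (Setoid.ker (s.Q.cellv b k)) : FL (S.F k)) ≤
      H (fc (Setoid.ker (s.Q.cellv b k)) ⊔ (fc (X k) ⊔ fc (Setoid.ker (f.X.cellv b k))) : FL (S.F k)) := H_mono le_sup_left
  have h2 : H (fc (Setoid.ker (s.Q.cellv b k)) ⊔ (fc (X k) ⊔ fc (Setoid.ker (f.X.cellv b k))) : FL (S.F k)) =
      h (fc (Setoid.ker (s.Q.cellv b k)) : FL (S.F k)) (fc (X k) ⊔ fc (Setoid.ker (f.X.cellv b k))) +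
        H (fc (X k) ⊔ fc (Setoid.ker (f.X.cellv b k)) : FL (S.F k)) := by
    unfold h
    ring
  have h3 : H (fc (X k) ⊔ fc (Setoid.ker (f.X.cellv b k)) : FL (S.F k)) =
      h (fc (Setoid.ker (f.X.cellv b k)) : FL (S.F k)) (fc (X k)) + H (fc (X k) : FL (S.F k)) := by
    unfold h
    rw [sup_comm]
    ring
  linarith

/-! ### members of the last class -/

/-- THE DEFICIT OF THE CELLS OF THE POINT, on all events of all extensions -/
theorem ym_H {D : MCl (M + 1)} {v g r : ℕ} {w : Fin (M + 1) → ℝ} {ρ : ℝ} {s : MSys S (M + 1) (lin g) (Fin r)}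
    (hs : YM D v g r w ρ S s) {b : ℝ} (h0 : 0 < b) (hb : b ≤ 1) (p : Pj T S) (A : ∀ k, (T.F k).Ω → Prop)
    (hA : 0 < ul (T.pr A)) : H ((s.im p A hA).Q.dg b) ≤ ((M + 1 : ℕ) - ρ) * b := by
  have hw : ∀ i, w i * 0 < 1 := fun i => by
    rw [mul_zero]
    exact one_pos
  obtain ⟨X, hX⟩ := hs.car T p A hA 0 le_rfl hw
  obtain ⟨f⟩ := hX.fr
  exact (mc0_H hX f hb).trans (hs.dfx T p A hA 0 le_rfl hw X hX f b h0 fun i => by
    rw [mul_zero, zero_add]
    exact hb)

/-- the members are stable -/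
theorem ym_stb {D : MCl (M + 1)} {v g r : ℕ} {w : Fin (M + 1) → ℝ} {ρ : ℝ} {s : MSys S (M + 1) (lin g) (Fin r)}
    (hs : YM D v g r w ρ S s) : Stb 0 s (rbot S) := by
  intro T p A hA
  have h1 := hs.tot T p A hA 0 le_rfl fun i => by
    rw [mul_zero]
    exact one_pos
  rw [mul_zero, sub_zero] at h1
  show ((M + 1 : ℕ) : ℝ) - 0 ≤ _
  rw [sub_zero, ← h1]

/-- the deficit `ρ` of the cells at all rational levels, as a property of objects -/
def dfO (N : ℕ) (ι : Type) (ρ : ℝ) : (KM N ι).Pd := fun S x => ∀ q : ℚ, ((0 : ℝ) < q ∧ (q : ℝ) ≤ 1) →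
  (entA N ι q ((N - ρ) * q)).pd 0 S x

theorem dfO_inv {ρ : ℝ} : Pool.Agent.Helper49.MD.Inv (dfO N ι ρ) := fun S x y e hx q hq =>
  (entA N ι q ((N - ρ) * q)).inv 0 S x y e (hx q hq)

theorem dfO_dg {ρ : ℝ} : DiagCl (dfO N ι ρ) :=
  Pool.Agent.Helper55.INV.dg_all fun q => Pool.Agent.Helper55.INV.dg_imp ((entA N ι q ((N - ρ) * q)).diagCl 0)

theorem dfO_of {ρ : ℝ} {s : MSys S N E ι} (h : ∀ b : ℝ, 0 < b → b ≤ 1 → ∀ (T : Sp) (p : Pj T S)
    (A : ∀ k, (T.F k).Ω → Prop) (hA : 0 < ul (T.pr A)), H ((s.im p A hA).Q.dg b) ≤ (N - ρ) * b) :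
    dfO N ι ρ S (ob s) := fun q hq => entA_of le_rfl fun T p A hA => by
  rw [add_zero]
  exact h q hq.1 hq.2 T p A hA

/-- real levels -/
theorem dfO_to {ρ : ℝ} (hρ : 0 < ρ) (hN : 1 ≤ N) {s : MSys S N E ι} (h : dfO N ι ρ S (ob s)) (b : ℝ) (h0 : 0 < b)
    (hb : b ≤ 1) : Dfc b s := by
  intro T p A hA
  have hN0 : (0 : ℝ) < N := by exact_mod_cast hN
  obtain ⟨q, hq1, hq2, hq3⟩ : ∃ q : ℚ, b ≤ q ∧ (q : ℝ) ≤ 1 ∧ ((N : ℝ) - ρ) * q < N * b := by
    rcases hb.eq_or_lt with h1 | h1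
    · refine ⟨1, ?_, ?_, ?_⟩
      · rw [h1, Rat.cast_one]
      · rw [Rat.cast_one]
      · rw [h1, Rat.cast_one]
        linarith
    · obtain ⟨q, a1, a2⟩ := exists_rat_btwn (show b < min 1 (b + ρ * b / N) from
        lt_min h1 (by linarith [div_pos (mul_pos hρ h0) hN0]))
      have a3 : (q : ℝ) < b + ρ * b / N := lt_of_lt_of_le a2 (min_le_right _ _)
      refine ⟨q, a1.le, (lt_of_lt_of_le a2 (min_le_left _ _)).le, ?_⟩
      have a4 : (N : ℝ) * q < N * b + ρ * b := by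
        have := mul_lt_mul_of_pos_left a3 hN0
        rw [mul_add, mul_div_cancel₀ _ hN0.ne'] at this
        exact this
      have a5 : ρ * b < ρ * q := mul_lt_mul_of_pos_left a1 hρ
      linarith
  have h2 := entA_to (h q ⟨h0.trans_le hq1, hq2⟩) p A hA
  have h3 : H ((s.im p A hA).Q.dg b) ≤ H ((s.im p A hA).Q.dg q) := H_mono ((s.im p A hA).Q.dg_mono hq1)
  exact (h3.trans h2).trans_lt hq3

end

end Pool.Agent.Helper32.DGY
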