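import Pool.Agent.Helper32.DGY.Aen
import Pool.Agent.Helper43.NSLB.Main

/-! [TOT] with helper43's theorem [NSLB]: limits of members of the last class. -/

set_option autoImplicit false

namespace Pool.Agent.Helper32.DGY

open Finset Filter Topology Matrix Pool.Agent.Helper69.RK Pool.Agent.Helper31.EC Pool.Agent.Helper31.EC.Sp
open Pool.Agent.Helper40.EL Pool.Agent.Helper89.LX Pool.Agent.Helper84.MT Pool.Agent.Helper49.MD
open Pool.Agent.Helper36.AM Pool.Agent.Helper29.MX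

noncomputable section

theorem nslx (N : ℕ) : NSLx N := Pool.Agent.Helper43.NSLB.nslb N

/-- [TOT] -/
theorem tot_fin {M : ℕ} {A : MCl (M + 1)} {C : ℕ → MCl (M + 1)} {B : MCl (M + 1)}
    {D : (Fin (M + 1) → ℝ) → ℕ → MCl (M + 1)} {v : ℕ} (zm : ZMYR M)
    (ctx : Pool.Agent.Helper94.SEL.Ctx M A C v) (ok : Okd (M + 1) A C B D) {m g r : ℕ} {w : Fin (M + 1) → ℝ} {ρ : ℝ}
    (hw : Wts M g w ρ) {S : ℕ → Sp} (s : ∀ j, MSys (S j) (M + 1) (lin g) (Fin r))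
    (hs : ∀ j, YM (D w m) v g r w ρ (S j) (s j)) :
    ∃ Q : ℕ → ℕ → ℕ → Prop, (∀ i j, ∀ᶠ k in UF, Q i j k) ∧ ∀ (J : ℕ → ℕ) (h : Slo S Q J),
      (∃ t : MSys (dsp S J h.lim) (M + 1) (lin g) (Fin r), (∀ᶠ k in UF, ob t k = ob (s (J k)) k) ∧ D w m _ g r t) ∧
      ∀ t : MSys (dsp S J h.lim) (M + 1) (lin g) (Fin r), (∀ᶠ k in UF, ob t k = ob (s (J k)) k) →
        Inv v t ∧ Pool.Agent.Helper26.OUT.WDs w t ∧ AllE (fun _ t R => Tot w t R) _ t (rbot _) :=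
  tot_dgn (nslx (M + 1)) zm ctx ok hw s hs

end

end Pool.Agent.Helper32.DGY
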